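import Pool.Agent.Helper76.DIM.Vtd
import Pool.Agent.Helper76.RL.Gsu
import Pool.Agent.Helper81.MT.Trn

/-! LEAVES FROM FULL COORDINATES (VTYPE). The coordinates `σ` of the point are full over the partition `V` and every other
coordinate `p` is cut, over `V`, by a form of degree `D` in the coordinates `(p, σ)` with exponent at least `b` in the
direction `p`. Then a refinement `La` of `V` of entropy `o(n)` is a leaf at the resolution `b`, with parameters the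
rescaled coordinates `σ` and charts simple roots of polynomials of degree `D`. -/

set_option autoImplicit false

namespace Pool.Agent.Helper76.DIM

open Finset Filter Topology Matrix Metric Pool.Agent.Helper69.RK Pool.Agent.Helper31.EC Pool.Agent.Helper31.EC.Sp
open Pool.Agent.Helper40.EL Pool.Agent.Helper89.LX Pool.Agent.Helper3.LF Pool.Agent.Helper84.MT
open Pool.Agent.Helper63.FRT
open Pool.Agent.Helper95.LF (PdM)
open Pool.Agent.Helper85.OA
open Pool.Agent.Helper76.RL (AlgR algR_const rc qA qA_ach sub_of ball_sub)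
open Pool.Agent.Helper52.SL (cellv_chg)

noncomputable section

variable {S : Sp} {M v D : ℕ}

/-- the charts of the leaf -/
lemma qA_ach' {K L : ℕ} {r : ℝ} {G : Fin K → (Fin v → ℂ) → ℂ} {Y : Fin v → ℝ} (hY : ∀ i, 0 ≤ Y i ∧ Y i ≤ 1) (hr : 5 ≤ r)
    (hd : ∀ j, DifferentiableOn ℂ (G j) (ball 0 r)) (ha : ∀ j, AlgR L r (G j)) :
    ACh L Y G (fun j => qA L r (G j)) := by
  have hb := ball_sub hY hr
  have h1 : ∀ j, qA L r (G j) = (ha j).choose := fun j => dif_pos (ha j)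
  refine ⟨fun j => (hd j).mono hb, fun j => ?_, fun j => ?_, fun j x hx => ?_, fun j x hx => ?_⟩
  · rw [h1]
    exact (ha j).choose_spec.1
  · rw [h1]
    exact (ha j).choose_spec.2.1
  · rw [h1]
    exact ((ha j).choose_spec.2.2 x (hb hx)).1
  · rw [h1]
    exact ((ha j).choose_spec.2.2 x (hb hx)).2

lemma VQ.mono {F : FSp} {V : Setoid F.Ω} {q : F.Ω → Fin M → ℝ} {σ : Fin v → Fin M} {b : ℝ} {η η' : ℝ} {d : VD F M v}
    (x : VQ F V q σ b D η d) (h : η ≤ η') : VQ F V q σ b D η' d := by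
  have hn := F.pos
  have h2 : (2 : ℝ) ^ (η * F.n) ≤ 2 ^ (η' * F.n) := by
    apply Real.rpow_le_rpow_of_exponent_le (by norm_num)
    exact mul_le_mul_of_nonneg_right h hn.le
  exact ⟨x.fn, x.N1, x.Nη.trans h2, x.uY, x.dG, x.aG, fun ω hω p y hy => (x.bG ω hω p y hy).trans h2, x.sG,
    fun ω hω p => (x.pt ω hω p).trans (mul_le_mul_of_nonneg_right h2 (by positivity)),
    x.en.trans (mul_le_mul_of_nonneg_right h hn.le), x.nv,
    (mul_le_mul_of_nonneg_right (by linarith) hn.le).trans x.ful⟩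

/-- the trivial data -/
def VD.triv (F : FSp) (M v : ℕ) : VD F M v := ⟨⊤, 1, fun _ _ => 0, fun _ _ _ => 0⟩

/-- a sequence of data whose defects tend to zero -/
structure VSeq (V : ∀ k, Setoid (S.F k).Ω) (Q : S.VV M) (σ : Fin v → Fin M) (b : ℝ) (D : ℕ)
    (d : ∀ k, VD (S.F k) M v) : Prop where
  inj : Function.Injective σ
  q : ∀ η : ℝ, 0 < η → ∀ᶠ k in UF, VQ (S.F k) (V k) (Q.v k) σ b D η (d k)

theorem exists_vseq {V : ∀ k, Setoid (S.F k).Ω} {Q : S.VV M} {σ : Fin v → Fin M} {b : ℝ} (hb : 0 < b) (hb1 : b ≤ 1)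
    (hD : 1 ≤ D) {g : Fin M → ∀ k, (S.F k).Ω → Matrix (Mon (v + 1) D) (Mon (v + 1) D) ℝ} (x : CutF V Q σ b D g) :
    ∃ d : ∀ k, VD (S.F k) M v, VSeq V Q σ b D d := by
  classical
  have h1 : ∀ i : ℕ, 0 < 1 / ((i : ℝ) + 1) ∧ 1 / ((i : ℝ) + 1) ≤ 1 := by
    intro i
    refine ⟨by positivity, ?_⟩
    rw [div_le_one (by positivity)]
    have : (0 : ℝ) ≤ i := Nat.cast_nonneg i
    linarith
  obtain ⟨y, j, hj, -, hy⟩ := dia' (X := fun k => VD (S.F k) M v)
    (fun i k => if h : ∃ z : VD (S.F k) M v, VQ (S.F k) (V k) (Q.v k) σ b D (1 / ((i : ℝ) + 1)) z then h.choose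
      else VD.triv (S.F k) M v)
    (fun i k z => VQ (S.F k) (V k) (Q.v k) σ b D (1 / ((i : ℝ) + 1)) z) (by
      intro i
      filter_upwards [exists_VQ hb hb1 hD x (h1 i).1 (h1 i).2] with k hk
      rw [dif_pos hk]
      exact hk.choose_spec)
  refine ⟨y, x.inj, fun η hη => ?_⟩
  have h0 : Tendsto (fun k => 1 / ((j k : ℝ) + 1)) UF (𝓝 0) :=
    tendsto_one_div_add_atTop_nhds_zero_nat.comp hj
  filter_upwards [hy, h0.eventually (gt_mem_nhds hη)] with k h2 h3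
  exact h2.mono h3.le

/-- the leaf partition -/
def vLa (V : ∀ k, Setoid (S.F k).Ω) (d : ∀ k, VD (S.F k) M v) : ∀ k, Setoid (S.F k).Ω := fun k => V k ⊓ (d k).R

namespace VSeq

variable {V : ∀ k, Setoid (S.F k).Ω} {Q : S.VV M} {σ : Fin v → Fin M} {b : ℝ} {d : ∀ k, VD (S.F k) M v}

/-- the parameters -/
def Y (x : VSeq V Q σ b D d) : S.VV v := ⟨fun k => (d k).Y σ (Q.v k), by
  refine ⟨fun _ => 1, S.Sub_const zero_le_one, ?_⟩
  filter_upwards [x.q 1 one_pos] with k hk ω _ i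
  have := hk.uY ω i
  rw [abs_le]
  constructor <;> linarith [this.1, this.2]⟩

lemma subN (x : VSeq V Q σ b D d) : S.Sub fun k => (d k).N :=
  sub_of ((x.q 1 one_pos).mono fun _ h => zero_le_one.trans h.N1) fun η hη => (x.q η hη).mono fun _ h => h.Nη

/-- a common bound -/
lemma exists_B (x : VSeq V Q σ b D d) : ∃ B : ℕ → ℝ, S.Sub B ∧
    (∀ᶠ k in UF, ∀ ω, (S.F k).μ ω ≠ 0 → ∀ p, ∀ y ∈ ball (0 : Fin v → ℂ) 5, ‖(d k).G ω p y‖ ≤ B k) ∧
    ∀ᶠ k in UF, ∀ ω, (S.F k).μ ω ≠ 0 → ∀ p,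
      ‖((Q.v k ω p : ℝ) : ℂ) - (d k).G ω p (rc ((d k).Y σ (Q.v k) ω))‖ ≤ B k * S.dl b k := by
  classical
  -- the smallest good exponent
  set P : ℕ → ℝ → Prop := fun k B => 0 ≤ B ∧ (∀ ω, (S.F k).μ ω ≠ 0 → ∀ p, ∀ y ∈ ball (0 : Fin v → ℂ) 5,
    ‖(d k).G ω p y‖ ≤ B) ∧ ∀ ω, (S.F k).μ ω ≠ 0 → ∀ p,
      ‖((Q.v k ω p : ℝ) : ℂ) - (d k).G ω p (rc ((d k).Y σ (Q.v k) ω))‖ ≤ B * S.dl b k with hP
  have hcl : ∀ k, (∃ B, P k B) → P k (sInf {B | P k B}) := by
    intro k ⟨B0, hB0⟩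
    have hbd : BddBelow {B | P k B} := ⟨0, fun B hB => hB.1⟩
    have hne : {B | P k B}.Nonempty := ⟨B0, hB0⟩
    refine ⟨le_csInf hne fun B hB => hB.1, fun ω hω p y hy => le_csInf hne fun B hB => hB.2.1 ω hω p y hy,
      fun ω hω p => ?_⟩
    rw [← div_le_iff₀ (S.dl_pos b k)]
    exact le_csInf hne fun B hB => by
      rw [div_le_iff₀ (S.dl_pos b k)]
      exact hB.2.2 ω hω p
  have hex : ∀ η : ℝ, 0 < η → ∀ᶠ k in UF, P k (2 ^ (η * (S.F k).n)) := by
    intro η hη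
    filter_upwards [x.q η hη] with k hk
    exact ⟨by positivity, hk.bG, hk.pt⟩
  refine ⟨fun k => sInf {B | P k B}, sub_of ?_ (fun η hη => ?_), ?_, ?_⟩
  · filter_upwards [hex 1 one_pos] with k hk
    exact (hcl k ⟨_, hk⟩).1
  · filter_upwards [hex η hη] with k hk
    exact csInf_le ⟨0, fun B hB => hB.1⟩ hk
  · filter_upwards [hex 1 one_pos] with k hk
    exact (hcl k ⟨_, hk⟩).2.1
  · filter_upwards [hex 1 one_pos] with k hk
    exact (hcl k ⟨_, hk⟩).2.2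

/-- the label has entropy `o(n)` over `V` -/
lemma ent (x : VSeq V Q σ b D d) :
    Tendsto (fun k => h (fc (vLa V d k)) (fc (V k)) / (S.F k).n) UF (𝓝 0) := by
  rw [Metric.tendsto_nhds]
  intro ε hε
  filter_upwards [x.q (ε / 2) (by linarith)] with k hk
  have hn : 0 < (S.F k).n := (S.F k).pos
  rw [Real.dist_eq, sub_zero, abs_of_nonneg (div_nonneg (h_nonneg _ _) hn.le), div_lt_iff₀ hn, h_fc]
  have h1 : (S.F k).e (vLa V d k) (V k ⊓ (S.F k).Z) ≤ (S.F k).e (d k).R (V k ⊓ (S.F k).Z) := by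
    have h2 := (S.F k).e_sup_le (V k) (d k).R (V k ⊓ (S.F k).Z)
    have h3 : (S.F k).e (V k) (V k ⊓ (S.F k).Z) = 0 := (S.F k).e_zero fun ω ω' _ _ h => h.1
    rw [h3, zero_add] at h2
    exact h2
  have h2 := hk.en
  nlinarith

lemma vb (x : VSeq V Q σ b D d) (hV : S.VB V) : S.VB (vLa V d) := by
  apply hV.inf
  refine ⟨cV M v, ?_⟩
  filter_upwards [x.q 1 one_pos] with k hk
  exact hk.nv

/-- the parameters are full -/
lemma ful (x : VSeq V Q σ b D d) (hb : 0 < b) : Tendsto (fun k => h (fc (Setoid.ker (x.Y.cellv b k)))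
    (fc (vLa V d k)) / (S.F k).n) UF (𝓝 (v * b)) := by
  rw [Metric.tendsto_nhds]
  intro ε hε
  have h2 := h_celm_le x.Y (fun _ => 0) (fun _ => b) (fun _ => hb.le) (vLa V d) (fun _ => 1) (S.Sub_const zero_le_one) (by
    filter_upwards [x.q 1 one_pos] with k hk ω ω' _ _ _ _ i
    rw [S.dl_zero, mul_one]
    have h3 := hk.uY ω i
    have h4 := hk.uY ω' i
    show |(d k).Y σ (Q.v k) ω i - (d k).Y σ (Q.v k) ω' i| ≤ 1
    rw [abs_le]
    constructor <;> linarith [h3.1, h3.2, h4.1, h4.2]) (ε / 2) (by linarith)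
  filter_upwards [h2, x.q (ε / 2) (by linarith)] with k a hk
  have hn : 0 < (S.F k).n := (S.F k).pos
  rw [Real.dist_eq, abs_lt]
  have e1 : ∑ _i : Fin v, (b - 0) = v * b := by simp
  rw [celm_const, e1] at a
  have h3 := hk.ful
  have h4 : (v * b - ε / 2) ≤ h (fc (Setoid.ker (x.Y.cellv b k))) (fc (vLa V d k)) / (S.F k).n := by
    rw [le_div_iff₀ hn, h_fc]
    exact h3
  constructor <;> linarith

/-- the parameters are full at the resolution `b` -/
lemma fulc (x : VSeq V Q σ b D d) (hb : 0 < b) :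
    Tendsto (fun k => h (fc (F := (S.chg S.tr b hb).F k) (Setoid.ker ((x.Y.chg S.tr b hb).cellv 1 k)))
      (fc (vLa V d k)) / ((S.chg S.tr b hb).F k).n) UF (𝓝 v) := by
  have h2 := (x.ful hb).const_mul b⁻¹
  have e1 : b⁻¹ * ((v : ℝ) * b) = v := by
    field_simp
  rw [e1] at h2
  refine h2.congr fun k => ?_
  have e2 := h_chg_top b hb (F := S.F k) (Setoid.ker (x.Y.cellv b k)) (vLa V d k)
  show b⁻¹ * (h (fc (Setoid.ker (x.Y.cellv b k))) (fc (vLa V d k)) / (S.F k).n) =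
    h (fc (F := (S.F k).chg ⊤ b hb) (Setoid.ker ((x.Y.chg S.tr b hb).cellv 1 k))) (fc (vLa V d k)) / (b * (S.F k).n)
  have e3 : (x.Y.chg S.tr b hb).cellv 1 k = x.Y.cellv b k := (cellv_chg x.Y b hb 1 k).trans (by rw [mul_one])
  have e4 : h (fc (F := (S.F k).chg ⊤ b hb) (Setoid.ker ((x.Y.chg S.tr b hb).cellv 1 k))) (fc (vLa V d k)) =
      h (fc (Setoid.ker (x.Y.cellv b k))) (fc (vLa V d k)) :=
    (congrArg (fun f => h (fc (F := (S.F k).chg ⊤ b hb) (Setoid.ker f)) (fc (vLa V d k))) e3).trans e2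
  have e5 : ∀ x n : ℝ, b⁻¹ * (x / n) = x / (b * n) := by
    intro x n
    rw [← div_div, div_right_comm, div_eq_inv_mul (x / n)]
  exact (e5 _ _).trans (congrArg (fun x => x / (b * (S.F k).n)) e4.symm)

/-- the leaf at the resolution `b` -/
def leaf (x : VSeq V Q σ b D d) (hb : 0 < b) :
    Leaf (S.chg S.tr b hb) (Q.chg S.tr b hb) (Pool.Agent.Helper84.MT.lin (1 * cA M (M + M) D)) :=
  Leaf.ofAlgRe (S := S.chg S.tr b hb) (Q := Q.chg S.tr b hb) M D v (by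
      have := Fintype.card_le_of_injective σ x.inj
      rwa [Fintype.card_fin, Fintype.card_fin] at this)
    (fun k => vLa V d k) (x.Y.chg S.tr b hb) (fun k ω => (d k).G ω)
    (by
      filter_upwards [x.q 1 one_pos] with k hk w w' h1 h2 h3 h4
      exact (hk.fn w w' h1 h2 h3.2 h4.1 h4.2).1)
    (by
      obtain ⟨B, hB, h1, -⟩ := x.exists_B
      refine ⟨B, chg_sub S.tr b hb hB, ?_⟩
      filter_upwards [h1, x.q 1 one_pos] with k hk hk' w hw y hy j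
      refine (Complex.abs_re_le_norm _).trans (hk w hw j _ ?_)
      apply ball_sub (hk'.uY w) le_rfl
      rw [mem_ball, dist_eq_norm]
      refine lt_of_le_of_lt (b := 1) ?_ (by norm_num)
      rw [pi_norm_le_iff_of_nonneg zero_le_one]
      intro i
      rw [Pi.sub_apply, ← Complex.ofReal_sub, Complex.norm_real, Real.norm_eq_abs]
      exact hy i)
    (fun k ω j => qA D 5 ((d k).G ω j))
    (by
      filter_upwards [x.q 1 one_pos] with k hk w hw
      exact qA_ach' (hk.uY w) le_rfl (hk.dG w) (hk.aG w))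
    (by
      obtain ⟨B, hB, -, h1⟩ := x.exists_B
      refine ⟨B, chg_sub S.tr b hb hB, ?_⟩
      filter_upwards [h1] with k hk w hw j
      rw [chg_dl, mul_one]
      refine le_trans ?_ (hk w hw j)
      have h3 := Complex.abs_re_le_norm (((Q.v k w j : ℝ) : ℂ) - (d k).G w j (rc ((d k).Y σ (Q.v k) w)))
      rw [Complex.sub_re, Complex.ofReal_re] at h3
      exact h3)
    (x.fulc hb)

end VSeq

/-- THE LEAF over full coordinates: `La` refines `V` with entropy `o(n)`, its parameters are the rescaled coordinates `σ`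
(`N` is tame, `c` is the grid cell), and the chart in the direction of the coordinates `σ` is the inverse of the
rescaling -/
structure VLeaf (V : ∀ k, Setoid (S.F k).Ω) (Q : S.VV M) (σ : Fin v → Fin M) (b : ℝ) (hb : 0 < b) (g : ℕ)
    (La : ∀ k, Setoid (S.F k).Ω) (Y : S.VV v) (N : ℕ → ℝ) (c : ∀ k, (S.F k).Ω → Fin v → ℤ)
    (f : Leaf (S.chg S.tr b hb) (Q.chg S.tr b hb) (Pool.Agent.Helper84.MT.lin g)) : Prop where
  e : f.e = v
  eLa : f.La = La
  par : ∀ k ω (j : Fin v), f.Y.v k ω (Fin.cast e.symm j) = Y.v k ω j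
  chart : ∀ᶠ k in UF, ∀ (ω : (S.F k).Ω) (y : Fin f.e → ℝ) (j : Fin v),
    f.F k ω y (σ j) = (c k ω j + y (Fin.cast e.symm j)) / N k
  le : ∀ k, La k ≤ V k
  vb : S.VB V → S.VB La
  ent : Tendsto (fun k => h (fc (La k)) (fc (V k)) / (S.F k).n) UF (𝓝 0)
  N1 : ∀ᶠ k in UF, 1 ≤ N k
  subN : S.Sub N
  eY : ∀ k ω j, Y.v k ω j = N k * Q.v k ω (σ j) - c k ω j
  uY : ∀ᶠ k in UF, ∀ ω j, 0 ≤ Y.v k ω j ∧ Y.v k ω j ≤ 1
  msc : ∀ᶠ k in UF, ∀ ω ω', (S.F k).μ ω ≠ 0 → (S.F k).μ ω' ≠ 0 → (S.F k).Z ω ω' → La k ω ω' → c k ω = c k ω'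

/-- LEAVES FROM FULL COORDINATES -/
theorem vtype {V : ∀ k, Setoid (S.F k).Ω} {Q : S.VV M} {σ : Fin v → Fin M} {b : ℝ} (hb : 0 < b) (hb1 : b ≤ 1)
    (hD : 1 ≤ D) {g : Fin M → ∀ k, (S.F k).Ω → Matrix (Mon (v + 1) D) (Mon (v + 1) D) ℝ} (x : CutF V Q σ b D g) :
    ∃ (La : ∀ k, Setoid (S.F k).Ω) (Y : S.VV v) (N : ℕ → ℝ) (c : ∀ k, (S.F k).Ω → Fin v → ℤ)
      (f : Leaf (S.chg S.tr b hb) (Q.chg S.tr b hb) (Pool.Agent.Helper84.MT.lin (1 * cA M (M + M) D))),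
      VLeaf V Q σ b hb (1 * cA M (M + M) D) La Y N c f := by
  obtain ⟨d, s⟩ := exists_vseq hb hb1 hD x
  refine ⟨vLa V d, s.Y, fun k => (d k).N, fun k => (d k).c, s.leaf hb, ⟨rfl, rfl, fun _ _ _ => rfl, ?_,
    fun k => inf_le_left, s.vb, s.ent, ?_, s.subN, fun _ _ _ => rfl, ?_, ?_⟩⟩
  · filter_upwards [s.q 1 one_pos] with k hk ω y j
    have h1 := hk.sG ω j
    show ((d k).G ω (σ j) (fun i => (y i : ℂ))).re = _
    rw [h1]
    have h2 : (((d k).c ω j : ℤ) : ℂ) + ((y j : ℝ) : ℂ) = ((((d k).c ω j : ℝ) + y j : ℝ) : ℂ) := by push_cast; rfl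
    show (((((d k).c ω j : ℤ) : ℂ) + ((y j : ℝ) : ℂ)) / (((d k).N : ℝ) : ℂ)).re = _
    rw [h2, ← Complex.ofReal_div, Complex.ofReal_re]
    rfl
  · filter_upwards [s.q 1 one_pos] with k hk
    exact hk.N1
  · filter_upwards [s.q 1 one_pos] with k hk ω j
    exact hk.uY ω j
  · filter_upwards [s.q 1 one_pos] with k hk ω ω' h1 h2 h3 h4
    exact (hk.fn ω ω' h1 h2 h3 h4.1 h4.2).2

end

end Pool.Agent.Helper76.DIM
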