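import Pool.Agent.Helper76.DIM.Frm

/-! DIMENSION: if some coordinates are full over a partition and the others are cut by forms with exponents at least `u`,
the entropy of the digits of level `r ≤ u` of the point is `r` times the number of full coordinates. -/

set_option autoImplicit false

namespace Pool.Agent.Helper76.DIM

open Finset Filter Topology Matrix Pool.Agent.Helper69.RK Pool.Agent.Helper31.EC Pool.Agent.Helper31.EC.Sp
open Pool.Agent.Helper40.EL Pool.Agent.Helper89.LX Pool.Agent.Helper3.LF Pool.Agent.Helper84.MT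
open Pool.Agent.Helper63.FRT
open Pool.Agent.Helper95.LF (PdM)

noncomputable section

variable {S : Sp} {e M : ℕ}

/-- a choice of coordinates -/
def pck (Q : S.VV M) (σ : Fin e → Fin M) : S.VV e where
  v := fun k ω i => Q.v k ω (σ i)
  bd := by
    obtain ⟨K, hK, h⟩ := Q.bd
    exact ⟨K, hK, by filter_upwards [h] with k hk ω hω i using hk ω hω (σ i)⟩

/-- full digits at all levels -/
theorem full_level (Y : S.VV e) (La : ∀ k, Setoid (S.F k).Ω)
    (full : Tendsto (fun k => h (fc (Setoid.ker (Y.cellv 1 k))) (fc (La k)) / (S.F k).n) UF (𝓝 e)) (r : ℝ) (h0 : 0 ≤ r)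
    (h1 : r ≤ 1) :
    Tendsto (fun k => h (fc (Setoid.ker (Y.cellv r k))) (fc (La k)) / (S.F k).n) UF (𝓝 (e * r)) := by
  rw [Metric.tendsto_nhds]
  intro ε hε
  obtain ⟨K, hK, hY⟩ := Y.bd
  have h2 := h_celm_le Y (fun _ => 0) (fun _ => r) (fun _ => h0) La (fun k => K k + K k) (hK.add hK) (by
    filter_upwards [hY] with k hk ω ω' a b _ _ i
    rw [S.dl_zero, mul_one]
    refine (abs_sub _ _).trans (add_le_add (hk ω a i) (hk ω' b i))) (ε / 2) (by linarith)
  have h3 := h_celm_le Y (fun _ => r) (fun _ => 1) (fun _ => h1) (fun k => La k ⊓ Setoid.ker (Y.cellv r k)) (fun _ => 1)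
    (S.Sub_const zero_le_one)
    (Eventually.of_forall fun k ω ω' _ _ _ q i => by
      rw [one_mul]
      exact abs_sub_le_of_floor_eq (S.dl_pos _ k) (congrFun q.2 i)) (ε / 2) (by linarith)
  have h4 := full.eventually (lt_mem_nhds (show (e : ℝ) - ε / 4 < e by linarith))
  filter_upwards [h2, h3, h4] with k a b d
  rw [Real.dist_eq, abs_lt]
  have hn := (S.F k).pos
  have h5 : h (fc (Setoid.ker (Y.cellv 1 k))) (fc (La k)) ≤ h (fc (Setoid.ker (Y.cellv r k))) (fc (La k)) +
      h (fc (Setoid.ker (Y.cellv 1 k))) (fc (La k ⊓ Setoid.ker (Y.cellv r k))) := by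
    refine (h_mono (le_sup_right : fc (Setoid.ker (Y.cellv 1 k)) ≤ fc (Setoid.ker (Y.cellv r k)) ⊔ _)).trans ?_
    rw [h_chain, fc_inf, sup_comm (fc (La k))]
  have h6 := div_le_div_of_nonneg_right h5 hn.le
  rw [add_div] at h6
  have e1 : ∑ _i : Fin e, (r - 0) = e * r := by simp
  have e2 : ∑ _i : Fin e, (1 - r) = e - e * r := by
    rw [Finset.sum_const, Finset.card_univ, Fintype.card_fin, nsmul_eq_mul]
    ring
  rw [celm_const, e1] at a
  rw [celm_const, e2] at b
  constructor <;> linarith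

/-- DIMENSION, combination of the coordinates -/
theorem dim_comb (Q : S.VV M) (σ : Fin e → Fin M) (La : ∀ k, Setoid (S.F k).Ω)
    (full : Tendsto (fun k => h (fc (Setoid.ker ((pck Q σ).cellv 1 k))) (fc (La k)) / (S.F k).n) UF (𝓝 e))
    (r : ℝ) (h0 : 0 ≤ r) (h1 : r ≤ 1)
    (hp : ∀ p : Fin M, (∀ i, σ i ≠ p) → PLe (fun k => fc (Setoid.ker ((pck Q (fun _ : Fin 1 => p)).cellv r k)))
      (fun k => fc (La k ⊓ Setoid.ker ((pck Q σ).cellv r k)))) :
    PLe (fun k => fc (Setoid.ker (Q.cellv r k))) (fun k => fc (La k ⊓ Setoid.ker ((pck Q σ).cellv r k))) ∧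
    Tendsto (fun k => h (fc (Setoid.ker (Q.cellv r k))) (fc (La k)) / (S.F k).n) UF (𝓝 (e * r)) := by
  classical
  have hk1 : PLe (fun k => fc (Setoid.ker (Q.cellv r k))) (fun k => fc (La k ⊓ Setoid.ker ((pck Q σ).cellv r k))) := by
    have h2 : ∀ p : Fin M, Tendsto (fun k => (S.F k).e (Setoid.ker (fun ω => Q.cellv r k ω p))
        (La k ⊓ Setoid.ker ((pck Q σ).cellv r k) ⊓ (S.F k).Z) / (S.F k).n) UF (𝓝 0) := by
      intro p
      by_cases hpσ : ∀ i, σ i ≠ p
      · have h3 : Tendsto (fun k => h (fc (Setoid.ker ((pck Q (fun _ : Fin 1 => p)).cellv r k)))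
            (fc (La k ⊓ Setoid.ker ((pck Q σ).cellv r k))) / (S.F k).n) UF (𝓝 0) := hp p hpσ
        refine h3.congr fun k => ?_
        rw [h_fc]
        congr 1
        apply le_antisymm
        · apply (S.F k).e_mono
          intro ω ω' _ _ h _
          show (pck Q (fun _ : Fin 1 => p)).cellv r k ω = (pck Q (fun _ : Fin 1 => p)).cellv r k ω'
          funext _
          exact h
        · apply (S.F k).e_mono
          intro ω ω' _ _ h _
          exact congrFun h 0
      · obtain ⟨i, hi⟩ := not_forall.mp hpσ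
        have hi := not_not.mp hi
        refine tendsto_const_nhds.congr fun k => ?_
        have h4 : (S.F k).e (Setoid.ker (fun ω => Q.cellv r k ω p))
            (La k ⊓ Setoid.ker ((pck Q σ).cellv r k) ⊓ (S.F k).Z) = 0 := by
          apply (S.F k).e_zero
          intro ω ω' _ _ h
          have h5 := congrFun h.1.2 i
          rw [← hi]
          exact h5
        rw [h4, zero_div]
    have h3 : Tendsto (fun k => ∑ p : Fin M, (S.F k).e (Setoid.ker (fun ω => Q.cellv r k ω p))
        (La k ⊓ Setoid.ker ((pck Q σ).cellv r k) ⊓ (S.F k).Z) / (S.F k).n) UF (𝓝 (∑ _p : Fin M, 0)) :=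
      tendsto_finsetSum _ fun p _ => h2 p
    rw [Finset.sum_const_zero] at h3
    refine squeeze_zero (fun k => div_nonneg (h_nonneg _ _) (S.F k).pos.le) (fun k => ?_) h3
    rw [← Finset.sum_div]
    apply div_le_div_of_nonneg_right _ (S.F k).pos.le
    show h (fc (Setoid.ker (Q.cellv r k))) (fc _) ≤ _
    rw [h_fc]
    exact e_pi_le _ _ _
  refine ⟨hk1, ?_⟩
  have hk1' : Tendsto (fun k => h (fc (Setoid.ker (Q.cellv r k))) (fc (La k ⊓ Setoid.ker ((pck Q σ).cellv r k))) /
    (S.F k).n) UF (𝓝 0) := hk1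
  have h2 := full_level (pck Q σ) La full r h0 h1
  have h3 := h2.add hk1'
  rw [add_zero] at h3
  refine tendsto_of_tendsto_of_tendsto_of_le_of_le h2 h3 (fun k => ?_) (fun k => ?_)
  · show h (fc (Setoid.ker ((pck Q σ).cellv r k))) (fc (La k)) / (S.F k).n ≤
      h (fc (Setoid.ker (Q.cellv r k))) (fc (La k)) / (S.F k).n
    apply div_le_div_of_nonneg_right _ (S.F k).pos.le
    apply h_mono
    apply fc_le
    intro ω ω' _ _ _ h
    show (pck Q σ).cellv r k ω = (pck Q σ).cellv r k ω'
    funext i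
    exact congrFun h (σ i)
  · show h (fc (Setoid.ker (Q.cellv r k))) (fc (La k)) / (S.F k).n ≤
      h (fc (Setoid.ker ((pck Q σ).cellv r k))) (fc (La k)) / (S.F k).n +
      h (fc (Setoid.ker (Q.cellv r k))) (fc (La k ⊓ Setoid.ker ((pck Q σ).cellv r k))) / (S.F k).n
    rw [← add_div]
    apply div_le_div_of_nonneg_right _ (S.F k).pos.le
    refine (h_mono (le_sup_right : fc (Setoid.ker (Q.cellv r k)) ≤ fc (Setoid.ker ((pck Q σ).cellv r k)) ⊔ _)).trans ?_
    rw [h_chain, fc_inf, sup_comm (fc (La k))]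

end

end Pool.Agent.Helper76.DIM
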