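import Pool.Agent.Helper76.DIM.Vtb

/-! LEAVES FROM FULL COORDINATES (VTYPE): the finite level. -/

set_option autoImplicit false

namespace Pool.Agent.Helper76.DIM

open Finset Filter Topology Matrix Metric Pool.Agent.Helper69.RK Pool.Agent.Helper31.EC Pool.Agent.Helper31.EC.Sp
open Pool.Agent.Helper40.EL Pool.Agent.Helper89.LX Pool.Agent.Helper3.LF Pool.Agent.Helper84.MT
open Pool.Agent.Helper63.FRT
open Pool.Agent.Helper95.LF (PdM)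
open Pool.Agent.Helper76.RL (fam fam_deg cB cB_one AlgR algR_const algR_mono rc ev)

noncomputable section

variable {S : Sp} {M v D : ℕ}

/-- finite data of the leaf: code, grid, cell, chart -/
structure VD (F : FSp) (M v : ℕ) where
  R : Setoid F.Ω
  N : ℝ
  c : F.Ω → Fin v → ℤ
  G : F.Ω → Fin M → (Fin v → ℂ) → ℂ

/-- the parameters -/
def VD.Y {F : FSp} (d : VD F M v) (σ : Fin v → Fin M) (q : F.Ω → Fin M → ℝ) : F.Ω → Fin v → ℝ :=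
  fun ω j => d.N * q ω (σ j) - d.c ω j

/-- the number of values of the code -/
def cV (M v : ℕ) : ℝ := v * 2 + (1 + M * 2)

/-- quality of the data -/
structure VQ (F : FSp) (V : Setoid F.Ω) (q : F.Ω → Fin M → ℝ) (σ : Fin v → Fin M) (b : ℝ) (D : ℕ) (η : ℝ)
    (d : VD F M v) : Prop where
  fn : ∀ ω ω', F.μ ω ≠ 0 → F.μ ω' ≠ 0 → F.Z ω ω' → V ω ω' → d.R ω ω' → d.G ω = d.G ω' ∧ d.c ω = d.c ω'
  N1 : 1 ≤ d.N
  Nη : d.N ≤ 2 ^ (η * F.n)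
  uY : ∀ ω j, 0 ≤ d.Y σ q ω j ∧ d.Y σ q ω j ≤ 1
  dG : ∀ ω p, DifferentiableOn ℂ (d.G ω p) (ball 0 5)
  aG : ∀ ω p, AlgR D 5 (d.G ω p)
  bG : ∀ ω, F.μ ω ≠ 0 → ∀ p, ∀ y ∈ ball (0 : Fin v → ℂ) 5, ‖d.G ω p y‖ ≤ 2 ^ (η * F.n)
  sG : ∀ ω j, d.G ω (σ j) = fun y => ((d.c ω j : ℂ) + y j) / (d.N : ℂ)
  pt : ∀ ω, F.μ ω ≠ 0 → ∀ p, ‖((q ω p : ℝ) : ℂ) - d.G ω p (rc (d.Y σ q ω))‖ ≤ 2 ^ (η * F.n) * 2 ^ (-(b * F.n))
  en : F.e d.R (V ⊓ F.Z) ≤ η * F.n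
  nv : ∀ ω, F.μ ω ≠ 0 → (Sp.nv F d.R ω : ℝ) ≤ 2 ^ (cV M v * F.n)
  ful : (v * b - η) * F.n ≤ F.e (Setoid.ker fun ω => cell (2 ^ (-(b * F.n))) (d.Y σ q ω)) (V ⊓ d.R ⊓ F.Z)

/-- FULL COORDINATES AND CUTS: the coordinates `σ` are full over `V`, every other coordinate `p` is cut by a form in the
coordinates `(p, σ)`, known to `V`, whose exponent in the direction `p` is at least `b` -/
structure CutF (V : ∀ k, Setoid (S.F k).Ω) (Q : S.VV M) (σ : Fin v → Fin M) (b : ℝ) (D : ℕ)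
    (g : Fin M → ∀ k, (S.F k).Ω → Matrix (Mon (v + 1) D) (Mon (v + 1) D) ℝ) : Prop where
  inj : Function.Injective σ
  full : Tendsto (fun k => h (fc (Setoid.ker ((pck Q σ).cellv 1 k))) (fc (V k)) / (S.F k).n) UF (𝓝 v)
  pd : ∀ p, (∀ i, σ i ≠ p) → ∀ᶠ k in UF, ∀ ω, (S.F k).μ ω ≠ 0 → PdM (g p k ω)
  ms : ∀ p, (∀ i, σ i ≠ p) → ∀ᶠ k in UF, ∀ ω ω', (S.F k).μ ω ≠ 0 → (S.F k).μ ω' ≠ 0 → (S.F k).Z ω ω' → V k ω ω' →
    g p k ω = g p k ω'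
  sm : ∀ p, (∀ i, σ i ≠ p) → ∀ η : ℝ, 0 < η → Typ (fun k ω => phi (S.dl 1 k) (g p k ω)
    ((pck Q (Fin.cons p σ : Fin (v + 1) → Fin M)).v k ω) ≤ 2 ^ (η * (S.F k).n))
  big : ∀ p, (∀ i, σ i ≠ p) → ∀ η : ℝ, 0 < η → Typ (fun k ω => 2 ^ (2 * (b - η) * (S.F k).n) ≤
    1 + Jq (S.dl 1 k) (g p k ω) ((pck Q (Fin.cons p σ : Fin (v + 1) → Fin M)).v k ω) 0 0)

lemma tlv_pck (Q : S.VV M) (σ : Fin v → Fin M) (p : Fin M) :
    tlv (pck Q (Fin.cons p σ : Fin (v + 1) → Fin M)) = pck Q σ := rfl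

open Classical in
/-- the chart -/
def chG (σ : Fin v → Fin M) (N : ℝ) (c : Fin v → ℤ) (A : Prop) (H : Fin M → (Fin v → ℂ) → ℂ) (x : Fin M → ℝ) :
    Fin M → (Fin v → ℂ) → ℂ :=
  fun p => if h : ∃ i, σ i = p then fun y => ((c h.choose : ℂ) + y h.choose) / (N : ℂ)
    else if A then H p else fun _ => ((x p : ℝ) : ℂ)

lemma chG_σ {σ : Fin v → Fin M} (hσ : Function.Injective σ) (N : ℝ) (c : Fin v → ℤ) (A : Prop)
    (H : Fin M → (Fin v → ℂ) → ℂ) (x : Fin M → ℝ) (j : Fin v) :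
    chG σ N c A H x (σ j) = fun y => ((c j : ℂ) + y j) / (N : ℂ) := by
  have h : ∃ i, σ i = σ j := ⟨j, rfl⟩
  have h1 : h.choose = j := hσ h.choose_spec
  unfold chG
  rw [dif_pos h, h1]

lemma chG_A {σ : Fin v → Fin M} (N : ℝ) (c : Fin v → ℤ) {A : Prop} (hA : A)
    (H : Fin M → (Fin v → ℂ) → ℂ) (x : Fin M → ℝ) {p : Fin M} (hp : ∀ i, σ i ≠ p) :
    chG σ N c A H x p = H p := by
  have h : ¬ ∃ i, σ i = p := fun ⟨i, hi⟩ => hp i hi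
  unfold chG
  rw [dif_neg h, if_pos hA]

lemma chG_B {σ : Fin v → Fin M} (N : ℝ) (c : Fin v → ℤ) {A : Prop} (hA : ¬ A)
    (H : Fin M → (Fin v → ℂ) → ℂ) (x : Fin M → ℝ) {p : Fin M} (hp : ∀ i, σ i ≠ p) :
    chG σ N c A H x p = fun _ => ((x p : ℝ) : ℂ) := by
  have h : ¬ ∃ i, σ i = p := fun ⟨i, hi⟩ => hp i hi
  unfold chG
  rw [dif_neg h, if_neg hA]

/-! ### the data of a level -/

section fin

variable {F : FSp} {V : Setoid F.Ω} {q : F.Ω → Fin M → ℝ} {σ : Fin v → Fin M} {b η N K : ℝ} {α : Type}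

/-- grid cells -/
def gc (N : ℝ) (σ : Fin v → Fin M) (q : F.Ω → Fin M → ℝ) : F.Ω → Fin v → ℤ := fun ω i => ⌊N * q ω (σ i)⌋

open Classical in
/-- the cells of the point outside the event -/
def bdc (F : FSp) (b : ℝ) (A : F.Ω → Prop) (q : F.Ω → Fin M → ℝ) : F.Ω → Fin M → ℤ :=
  fun ω => if A ω then fun _ => 0 else cell (2 ^ (-(b * F.n))) (q ω)

/-- the data -/
def mkD (q : F.Ω → Fin M → ℝ) (σ : Fin v → Fin M) (b N : ℝ) (κ : F.Ω → α) (A : F.Ω → Prop)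
    (H : F.Ω → Fin M → (Fin v → ℂ) → ℂ) : VD F M v :=
  ⟨Setoid.ker (gc N σ q) ⊓ (Setoid.ker κ ⊓ Setoid.ker (bdc F b A q)), N, gc N σ q,
    fun ω => chG σ N (gc N σ q ω) (A ω) (H ω) (fun p => 2 ^ (-(b * F.n)) * bdc F b A q ω p)⟩

variable (κ : F.Ω → α) (A : F.Ω → Prop) (H : F.Ω → Fin M → (Fin v → ℂ) → ℂ)

lemma mkD_G (ω : F.Ω) : (mkD q σ b N κ A H).G ω =
    chG σ N (gc N σ q ω) (A ω) (H ω) (fun p => 2 ^ (-(b * F.n)) * bdc F b A q ω p) := rfl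

lemma mkD_A {ω : F.Ω} (h : A ω) {p : Fin M} (hp : ∀ i, σ i ≠ p) : (mkD q σ b N κ A H).G ω p = H ω p := by
  rw [mkD_G]
  exact chG_A _ _ h _ _ hp

lemma mkD_B {ω : F.Ω} (h : ¬ A ω) {p : Fin M} (hp : ∀ i, σ i ≠ p) :
    (mkD q σ b N κ A H).G ω p = fun _ => ((2 ^ (-(b * F.n)) * (⌊q ω p / 2 ^ (-(b * F.n))⌋ : ℝ) : ℝ) : ℂ) := by
  have h1 : (mkD q σ b N κ A H).G ω p = fun _ => ((2 ^ (-(b * F.n)) * bdc F b A q ω p : ℝ) : ℂ) := by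
    rw [mkD_G]
    exact chG_B _ _ h _ _ hp
  have h2 : bdc F b A q ω p = ⌊q ω p / 2 ^ (-(b * F.n))⌋ := by
    unfold bdc
    rw [if_neg h]
    rfl
  rw [h1, h2]

lemma mkD_σ (hσ : Function.Injective σ) (ω : F.Ω) (i : Fin v) :
    (mkD q σ b N κ A H).G ω (σ i) = fun y => (((⌊N * q ω (σ i)⌋ : ℤ) : ℂ) + y i) / (N : ℂ) := by
  rw [mkD_G]
  exact chG_σ hσ _ _ _ _ _ i

lemma cases_σ (p : Fin M) : (∃ i, σ i = p) ∨ (∀ i, σ i ≠ p) := by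
  by_cases h : ∃ i, σ i = p
  · exact Or.inl h
  · exact Or.inr fun i hi => h ⟨i, hi⟩

lemma mkD_fn (hσ : Function.Injective σ)
    (hms : ∀ ω ω', F.μ ω ≠ 0 → F.μ ω' ≠ 0 → F.Z ω ω' → V ω ω' → gc N σ q ω = gc N σ q ω' → κ ω = κ ω' →
      A ω = A ω' ∧ ∀ p, (∀ i, σ i ≠ p) → H ω p = H ω' p)
    (ω ω' : F.Ω) (h1 : F.μ ω ≠ 0) (h2 : F.μ ω' ≠ 0) (h3 : F.Z ω ω') (h4 : V ω ω')
    (h5 : (mkD q σ b N κ A H).R ω ω') :
    (mkD q σ b N κ A H).G ω = (mkD q σ b N κ A H).G ω' ∧ (mkD q σ b N κ A H).c ω = (mkD q σ b N κ A H).c ω' := by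
  have e1 : gc N σ q ω = gc N σ q ω' := h5.1
  have e2 : κ ω = κ ω' := h5.2.1
  have e3 : bdc F b A q ω = bdc F b A q ω' := h5.2.2
  obtain ⟨e4, e5⟩ := hms ω ω' h1 h2 h3 h4 e1 e2
  refine ⟨?_, e1⟩
  funext p
  rcases cases_σ (σ := σ) p with ⟨i, rfl⟩ | hp
  · rw [mkD_σ κ A H hσ, mkD_σ κ A H hσ]
    have e6 : ⌊N * q ω (σ i)⌋ = ⌊N * q ω' (σ i)⌋ := congrFun e1 i
    rw [e6]
  · by_cases hA : A ω
    · have hA' : A ω' := e4 ▸ hA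
      rw [mkD_A κ A H hA hp, mkD_A κ A H hA' hp]
      exact e5 p hp
    · have hA' : ¬ A ω' := e4 ▸ hA
      rw [mkD_B κ A H hA hp, mkD_B κ A H hA' hp]
      have e6 : ⌊q ω p / 2 ^ (-(b * F.n))⌋ = ⌊q ω' p / 2 ^ (-(b * F.n))⌋ := by
        have e7 := congrFun e3 p
        unfold bdc at e7
        rw [if_neg hA, if_neg hA'] at e7
        exact e7
      rw [e6]

lemma mkD_dG (hσ : Function.Injective σ) (hH : ∀ ω p, DifferentiableOn ℂ (H ω p) (ball 0 5)) (ω : F.Ω) (p : Fin M) :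
    DifferentiableOn ℂ ((mkD q σ b N κ A H).G ω p) (ball 0 5) := by
  rcases cases_σ (σ := σ) p with ⟨i, rfl⟩ | hp
  · rw [mkD_σ κ A H hσ]
    fun_prop
  · by_cases hA : A ω
    · rw [mkD_A κ A H hA hp]
      exact hH ω p
    · rw [mkD_B κ A H hA hp]
      exact differentiableOn_const _

lemma mkD_aG (hD : 1 ≤ D) (hσ : Function.Injective σ) (hH : ∀ ω p, AlgR D 5 (H ω p)) (ω : F.Ω) (p : Fin M) :
    AlgR D 5 ((mkD q σ b N κ A H).G ω p) := by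
  rcases cases_σ (σ := σ) p with ⟨i, rfl⟩ | hp
  · rw [mkD_σ κ A H hσ]
    exact algR_lin hD _ _ _ _
  · by_cases hA : A ω
    · rw [mkD_A κ A H hA hp]
      exact hH ω p
    · rw [mkD_B κ A H hA hp]
      exact algR_const hD _ _

lemma near_floor (x δ : ℝ) (hδ : 0 < δ) : |x - δ * (⌊x / δ⌋ : ℝ)| ≤ δ := by
  have h1 := Int.floor_le (x / δ)
  have h2 := Int.lt_floor_add_one (x / δ)
  rw [le_div_iff₀ hδ] at h1
  rw [div_lt_iff₀ hδ] at h2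
  rw [abs_le]
  constructor <;> nlinarith

lemma dl_le_one (F : FSp) (hb : 0 ≤ b) : (2 : ℝ) ^ (-(b * F.n)) ≤ 1 := by
  rw [Real.rpow_neg (by norm_num)]
  apply inv_le_one_of_one_le₀
  exact Real.one_le_rpow (by norm_num) (mul_nonneg hb F.pos.le)

lemma mkD_bG (hσ : Function.Injective σ) (hb : 0 ≤ b) (N1 : 1 ≤ N) (hq : ∀ ω, F.μ ω ≠ 0 → ∀ i, |q ω i| ≤ K)
    (hH : ∀ ω p, ∀ y ∈ ball (0 : Fin v → ℂ) 5, ‖H ω p y‖ ≤ 3 * (K + 1)) (hK0 : 0 ≤ K) (ω : F.Ω) (hω : F.μ ω ≠ 0)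
    (p : Fin M) (y : Fin v → ℂ) (hy : y ∈ ball (0 : Fin v → ℂ) 5) :
    ‖(mkD q σ b N κ A H).G ω p y‖ ≤ 3 * K + 6 := by
  rcases cases_σ (σ := σ) p with ⟨i, rfl⟩ | hp
  · rw [mkD_σ κ A H hσ]
    have hN0 : 0 < N := by linarith
    show ‖(((⌊N * q ω (σ i)⌋ : ℤ) : ℂ) + y i) / ((N : ℝ) : ℂ)‖ ≤ _
    rw [norm_div, Complex.norm_real, Real.norm_eq_abs, abs_of_pos hN0, div_le_iff₀ hN0]
    have h1 : ‖y i‖ ≤ 5 := by
      rw [mem_ball_zero_iff] at hy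
      exact (norm_le_pi_norm y i).trans hy.le
    have h2 : ‖((⌊N * q ω (σ i)⌋ : ℤ) : ℂ)‖ ≤ N * K + 1 := by
      have h4 : ((⌊N * q ω (σ i)⌋ : ℤ) : ℂ) = (((⌊N * q ω (σ i)⌋ : ℤ) : ℝ) : ℂ) := by push_cast; rfl
      rw [h4, Complex.norm_real, Real.norm_eq_abs]
      have h5 := Int.floor_le (N * q ω (σ i))
      have h6 := Int.lt_floor_add_one (N * q ω (σ i))
      have h7 : |N * q ω (σ i)| ≤ N * K := by
        rw [abs_mul, abs_of_pos hN0]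
        exact mul_le_mul_of_nonneg_left (hq ω hω _) hN0.le
      rw [abs_le] at h7 ⊢
      constructor <;> linarith
    refine (norm_add_le _ _).trans ?_
    nlinarith
  · by_cases hA : A ω
    · rw [mkD_A κ A H hA hp]
      refine (hH ω p y hy).trans ?_
      linarith
    · rw [mkD_B κ A H hA hp, Complex.norm_real, Real.norm_eq_abs]
      have h1 := near_floor (q ω p) (2 ^ (-(b * F.n))) (by positivity)
      have h2 := dl_le_one F hb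
      have h3 := hq ω hω p
      have h4 : |2 ^ (-(b * F.n)) * (⌊q ω p / 2 ^ (-(b * F.n))⌋ : ℝ)| ≤ |q ω p| +
          |q ω p - 2 ^ (-(b * F.n)) * (⌊q ω p / 2 ^ (-(b * F.n))⌋ : ℝ)| := by
        have h5 := abs_sub (q ω p) (q ω p - 2 ^ (-(b * F.n)) * (⌊q ω p / 2 ^ (-(b * F.n))⌋ : ℝ))
        rwa [sub_sub_cancel] at h5
      linarith

lemma mkD_pt (hσ : Function.Injective σ) (N1 : 1 ≤ N) {B : ℝ} (hB : 1 ≤ B)
    (hA' : ∀ ω, A ω → ∀ p, (∀ i, σ i ≠ p) → ‖((q ω p : ℝ) : ℂ) - H ω p (rc ((mkD q σ b N κ A H).Y σ q ω))‖ ≤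
      B * 2 ^ (-(b * F.n)))
    (ω : F.Ω) (p : Fin M) :
    ‖((q ω p : ℝ) : ℂ) - (mkD q σ b N κ A H).G ω p (rc ((mkD q σ b N κ A H).Y σ q ω))‖ ≤ B * 2 ^ (-(b * F.n)) := by
  have hδ : (0 : ℝ) < 2 ^ (-(b * F.n)) := by positivity
  rcases cases_σ (σ := σ) p with ⟨i, rfl⟩ | hp
  · rw [mkD_σ κ A H hσ]
    have hN0 : 0 < N := by linarith
    have e1 : ((q ω (σ i) : ℝ) : ℂ) - (((⌊N * q ω (σ i)⌋ : ℤ) : ℂ) + rc ((mkD q σ b N κ A H).Y σ q ω) i) /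
        ((N : ℝ) : ℂ) = 0 := by
      have h1 : rc ((mkD q σ b N κ A H).Y σ q ω) i = ((N * q ω (σ i) - (⌊N * q ω (σ i)⌋ : ℝ) : ℝ) : ℂ) := rfl
      rw [h1]
      have h2 : ((N : ℝ) : ℂ) ≠ 0 := by exact_mod_cast hN0.ne'
      push_cast
      field_simp
      ring
    show ‖((q ω (σ i) : ℝ) : ℂ) - (((⌊N * q ω (σ i)⌋ : ℤ) : ℂ) + rc ((mkD q σ b N κ A H).Y σ q ω) i) /
        ((N : ℝ) : ℂ)‖ ≤ _
    rw [e1, norm_zero]
    positivity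
  · by_cases hA : A ω
    · rw [mkD_A κ A H hA hp]
      exact hA' ω hA p hp
    · rw [mkD_B κ A H hA hp, ← Complex.ofReal_sub, Complex.norm_real, Real.norm_eq_abs]
      exact (near_floor (q ω p) _ hδ).trans (le_mul_of_one_le_left hδ.le hB)

lemma mkD_ful (N1 : 1 ≤ N) (hb1 : b ≤ 1) {t : ℝ} (ht : F.e (mkD q σ b N κ A H).R (V ⊓ F.Z) ≤ t) :
    F.e (Setoid.ker fun ω => cell (2 ^ (-F.n)) (fun i => q ω (σ i))) (V ⊓ F.Z) - t - v * ((1 - b) * F.n + 2) ≤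
      F.e (Setoid.ker fun ω => cell (2 ^ (-(b * F.n))) ((mkD q σ b N κ A H).Y σ q ω))
        (V ⊓ (mkD q σ b N κ A H).R ⊓ F.Z) := by
  set d := mkD q σ b N κ A H with hd
  set C : Setoid F.Ω := Setoid.ker fun ω => cell (2 ^ (-(b * F.n))) (d.Y σ q ω) with hC
  set X : Setoid F.Ω := Setoid.ker fun ω => cell (2 ^ (-F.n)) (fun i => q ω (σ i)) with hX
  have hN0 : 0 < N := by linarith
  have hn := F.pos
  have h1 := F.e_triangle X d.R (V ⊓ F.Z)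
  have h2 := F.e_triangle X C (d.R ⊓ (V ⊓ F.Z))
  have e1 : F.e C (d.R ⊓ (V ⊓ F.Z)) = F.e C (V ⊓ d.R ⊓ F.Z) := by
    congr 1
    ac_rfl
  rw [e1] at h2
  have h3 : F.e X (C ⊓ (d.R ⊓ (V ⊓ F.Z))) ≤ v * ((1 - b) * F.n + 2) := by
    have h4 := F.e_int_le (fun ω => cell (2 ^ (-F.n)) (fun i => q ω (σ i))) (C ⊓ (d.R ⊓ (V ⊓ F.Z)))
      (2 ^ ((1 - b) * F.n) + 1) (by positivity) (fun ω ω' _ _ h5 i => by
        have h6 : cell (2 ^ (-(b * F.n))) (d.Y σ q ω) = cell (2 ^ (-(b * F.n))) (d.Y σ q ω') := h5.1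
        have h7 : ⌊N * q ω (σ i)⌋ = ⌊N * q ω' (σ i)⌋ := congrFun h5.2.1.1 i
        have h8 : |d.Y σ q ω i - d.Y σ q ω' i| ≤ 2 ^ (-(b * F.n)) :=
          abs_sub_le_of_floor_eq (by positivity) (congrFun h6 i)
        have h9 : d.Y σ q ω i - d.Y σ q ω' i = N * (q ω (σ i) - q ω' (σ i)) := by
          show N * q ω (σ i) - ((⌊N * q ω (σ i)⌋ : ℤ) : ℝ) - (N * q ω' (σ i) - ((⌊N * q ω' (σ i)⌋ : ℤ) : ℝ)) =
            N * (q ω (σ i) - q ω' (σ i))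
          rw [h7]
          ring
        rw [h9, abs_mul, abs_of_pos hN0] at h8
        have h10 : |q ω (σ i) - q ω' (σ i)| ≤ 2 ^ ((1 - b) * F.n) * 2 ^ (-F.n) := by
          have h11 : (2 : ℝ) ^ (-(b * F.n)) = 2 ^ ((1 - b) * F.n) * 2 ^ (-F.n) := by
            rw [← Real.rpow_add (by norm_num)]
            congr 1
            ring
          rw [← h11]
          have := abs_nonneg (q ω (σ i) - q ω' (σ i))
          nlinarith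
        exact floor_diff (by positivity) h10)
    refine h4.trans ?_
    apply mul_le_mul_of_nonneg_left _ (Nat.cast_nonneg v)
    have h5 : (1 : ℝ) ≤ 2 ^ ((1 - b) * F.n) := by
      apply Real.one_le_rpow (by norm_num)
      apply mul_nonneg _ hn.le
      linarith
    have h6 : (2 : ℝ) ^ ((1 - b) * F.n) + 1 + 1 ≤ 2 ^ ((1 - b) * F.n + 2) := by
      rw [Real.rpow_add (by norm_num)]
      have : (2 : ℝ) ^ (2 : ℝ) = 4 := by norm_num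
      rw [this]
      linarith
    have h7 := Real.logb_le_logb_of_le (b := 2) (by norm_num) (by positivity) h6
    rwa [Real.logb_rpow (by norm_num) (by norm_num)] at h7
  linarith

end fin

end

end Pool.Agent.Helper76.DIM
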