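import Pool.Agent.Helper63.FRT.Lgj
import Pool.Agent.Helper84.MT.Leaf0

/-! SHEETS OVER FULL COORDINATES. `Y` is full over the partition `La`, `f` a polynomial of bounded degree, known to `La`,
which is small at `(z, Y)` and whose derivative in `z` is at least `2 ^ (θ n)`. Then the digits of level `r ≤ θ` of `z` are
known to `La` and the digits of level `r` of `Y` (the same level: the slopes of the sheet are tame). -/

set_option autoImplicit false

namespace Pool.Agent.Helper76.DIM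

open Finset Filter Topology Matrix Pool.Agent.Helper69.RK Pool.Agent.Helper31.EC Pool.Agent.Helper31.EC.Sp
open Pool.Agent.Helper40.EL Pool.Agent.Helper89.LX Pool.Agent.Helper3.LF Pool.Agent.Helper84.MT
open Pool.Agent.Helper63.FRT

noncomputable section

lemma pow_lip {u v δ : ℝ} (hu : |u| ≤ 1) (hv : |v| ≤ 1) (h : |u - v| ≤ δ) (a : ℕ) : |u ^ a - v ^ a| ≤ a * δ := by
  induction a with
  | zero => simp
  | succ a ih =>
    have e1 : u ^ (a + 1) - v ^ (a + 1) = u * (u ^ a - v ^ a) + (u - v) * v ^ a := by ring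
    have h1 : |u * (u ^ a - v ^ a)| ≤ 1 * (a * δ) := by
      rw [abs_mul]
      exact mul_le_mul hu ih (abs_nonneg _) zero_le_one
    have h2 : |(u - v) * v ^ a| ≤ δ * 1 := by
      rw [abs_mul, abs_pow]
      exact mul_le_mul h (pow_le_one₀ (abs_nonneg _) hv) (by positivity) ((abs_nonneg _).trans h)
    rw [e1]
    refine (abs_add_le _ _).trans ?_
    push_cast
    linarith

lemma prod_lip {n : ℕ} (s : Finset (Fin n)) (a : Fin n →₀ ℕ) (u v : Fin n → ℝ) {δ : ℝ} (hu : ∀ i, |u i| ≤ 1)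
    (hv : ∀ i, |v i| ≤ 1) (h : ∀ i, |u i - v i| ≤ δ) :
    |∏ i ∈ s, u i ^ a i - ∏ i ∈ s, v i ^ a i| ≤ ((∑ i ∈ s, a i : ℕ) : ℝ) * δ := by
  classical
  induction s using Finset.induction_on with
  | empty => simp
  | insert j s hj ih =>
    rw [Finset.prod_insert hj, Finset.prod_insert hj, Finset.sum_insert hj]
    set A := ∏ i ∈ s, u i ^ a i with hA
    set B := ∏ i ∈ s, v i ^ a i with hB
    have hA1 : |A| ≤ 1 := by
      rw [hA, Finset.abs_prod]
      apply Finset.prod_le_one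
      · intro i _
        exact abs_nonneg _
      · intro i _
        rw [abs_pow]
        exact pow_le_one₀ (abs_nonneg _) (hu i)
    have e1 : u j ^ a j * A - v j ^ a j * B = (u j ^ a j - v j ^ a j) * A + v j ^ a j * (A - B) := by ring
    have h1 : |(u j ^ a j - v j ^ a j) * A| ≤ (a j * δ) * 1 := by
      rw [abs_mul]
      exact mul_le_mul (pow_lip (hu j) (hv j) (h j) _) hA1 (abs_nonneg _)
        (mul_nonneg (Nat.cast_nonneg _) ((abs_nonneg _).trans (h j)))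
    have h2 : |v j ^ a j * (A - B)| ≤ 1 * (((∑ i ∈ s, a i : ℕ) : ℝ) * δ) := by
      rw [abs_mul, abs_pow]
      exact mul_le_mul (pow_le_one₀ (abs_nonneg _) (hv j)) ih (abs_nonneg _) zero_le_one
    rw [e1]
    refine (abs_add_le _ _).trans ?_
    push_cast at h2 ⊢
    linarith

/-- polynomials with bounded coefficients are Lipschitz on the cube -/
lemma eval_lip {n K : ℕ} (P : MvPolynomial (Fin n) ℝ) (hP : P.totalDegree ≤ K) {A : ℝ} (hA : ∀ a, |P.coeff a| ≤ A)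
    (u v : Fin n → ℝ) {δ : ℝ} (hu : ∀ i, |u i| ≤ 1) (hv : ∀ i, |v i| ≤ 1) (h : ∀ i, |u i - v i| ≤ δ) (hδ : 0 ≤ δ) :
    |MvPolynomial.eval u P - MvPolynomial.eval v P| ≤ (exps n K).card * (A * (K * δ)) := by
  rw [eval_exps P hP, eval_exps P hP, ← Finset.sum_sub_distrib]
  refine (Finset.abs_sum_le_sum_abs _ _).trans ?_
  rw [← nsmul_eq_mul]
  apply Finset.sum_le_card_nsmul
  intro a ha
  rw [← mul_sub, abs_mul]
  have h1 := prod_lip Finset.univ a u v hu hv h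
  have h2 : ((∑ i, a i : ℕ) : ℝ) ≤ K := by exact_mod_cast exps_deg ha
  have h3 : |∏ i, u i ^ a i - ∏ i, v i ^ a i| ≤ K * δ := h1.trans (mul_le_mul_of_nonneg_right h2 hδ)
  exact mul_le_mul (hA a) h3 (abs_nonneg _) ((abs_nonneg _).trans (hA a))

/-- two points of one cell of the graph -/
lemma two_pts {e K : ℕ} {B K0 d N p : ℝ} (G : MvPolynomial (Fin e) ℝ) (hG : G.totalDegree ≤ K) (c : Fin e → ℤ)
    (hN : 0 < N)
    (hc : ∀ a, |(rcp (fun i => (c i : ℝ) / N) (fun _ => 1 / N) G).coeff a| ≤ B * K0)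
    (Y Y' : Fin e → ℝ) (hY : ∀ i, ⌊N * Y i⌋ = c i) (hY' : ∀ i, ⌊N * Y' i⌋ = c i) (hd : 0 ≤ d)
    (hYY : ∀ i, |Y i - Y' i| ≤ d) (z z' : ℝ) (h1 : |z - MvPolynomial.eval Y G| ≤ p)
    (h2 : |z' - MvPolynomial.eval Y' G| ≤ p) :
    |z - z'| ≤ 2 * p + (exps e K).card * (B * K0 * (K * (N * d))) := by
  have hu : ∀ (Y : Fin e → ℝ), (∀ i, ⌊N * Y i⌋ = c i) → ∀ i, |N * Y i - c i| ≤ 1 := by
    intro Y hY i
    have h3 := Int.floor_le (N * Y i)
    have h4 := Int.lt_floor_add_one (N * Y i)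
    rw [hY i] at h3 h4
    rw [abs_le]
    constructor <;> linarith
  have hev : ∀ (Y : Fin e → ℝ), MvPolynomial.eval Y G =
      MvPolynomial.eval (fun i => N * Y i - c i) (rcp (fun i => (c i : ℝ) / N) (fun _ => 1 / N) G) := by
    intro Y
    rw [rcp_eval]
    have e2 : (fun i => (c i : ℝ) / N + 1 / N * (N * Y i - c i)) = Y := by
      funext i
      field_simp
      ring
    rw [e2]
  have h3 := eval_lip (rcp (fun i => (c i : ℝ) / N) (fun _ => 1 / N) G) ((rcp_deg _ _ _).trans hG) hc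
    (fun i => N * Y i - c i) (fun i => N * Y' i - c i) (δ := N * d) (hu Y hY) (hu Y' hY') (fun i => by
      have e1 : N * Y i - c i - (N * Y' i - c i) = N * (Y i - Y' i) := by ring
      rw [e1, abs_mul, abs_of_pos hN]
      exact mul_le_mul_of_nonneg_left (hYY i) hN.le) (by positivity)
  rw [← hev, ← hev] at h3
  have e1 : z - z' = (z - MvPolynomial.eval Y G) + (MvPolynomial.eval Y G - MvPolynomial.eval Y' G) +
      -(z' - MvPolynomial.eval Y' G) := by ring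
  rw [e1]
  refine (abs_add_le _ _).trans ?_
  rw [abs_neg]
  have h4 := abs_add_le (z - MvPolynomial.eval Y G) (MvPolynomial.eval Y G - MvPolynomial.eval Y' G)
  linarith

/-- the distance to the graph -/
lemma near_gr {D f g x n ε θ : ℝ} (hD : 0 ≤ D) (hf : f ≤ 2 ^ (ε * n)) (hg : 2 ^ ((θ - ε) * n) ≤ g)
    (hx : x * g ≤ D * f + 2 ^ (-(θ * n)) * g) (hεn : 0 ≤ ε * n) : x ≤ (D + 1) * (2 ^ (2 * ε * n) * 2 ^ (-(θ * n))) := by
  have hg0 : 0 < g := lt_of_lt_of_le (by positivity) hg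
  have h1 : f ≤ 2 ^ (2 * ε * n) * 2 ^ (-(θ * n)) * g := by
    refine hf.trans ?_
    have h2 : (2 : ℝ) ^ (2 * ε * n) * 2 ^ (-(θ * n)) * 2 ^ ((θ - ε) * n) = 2 ^ (ε * n) := by
      rw [← Real.rpow_add (by norm_num), ← Real.rpow_add (by norm_num)]
      congr 1
      ring
    rw [← h2]
    exact mul_le_mul_of_nonneg_left hg (by positivity)
  have h3 : (2 : ℝ) ^ (-(θ * n)) ≤ 2 ^ (2 * ε * n) * 2 ^ (-(θ * n)) := by
    apply le_mul_of_one_le_left (by positivity)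
    apply Real.one_le_rpow (by norm_num)
    linarith
  have h4 : x * g ≤ (D + 1) * (2 ^ (2 * ε * n) * 2 ^ (-(θ * n))) * g := by
    have h5 := mul_le_mul_of_nonneg_left h1 hD
    have h6 := mul_le_mul_of_nonneg_right h3 hg0.le
    linarith
  exact le_of_mul_le_mul_right h4 hg0

variable {S : Sp} {e : ℕ}

/-- SHEETS OVER FULL COORDINATES, with the grid cell and the branch -/
theorem sheet_aux (Y : S.VV e) (La : ∀ k, Setoid (S.F k).Ω)
    (full : Tendsto (fun k => h (fc (Setoid.ker (Y.cellv 1 k))) (fc (La k)) / (S.F k).n) UF (𝓝 e))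
    {D : ℕ} (hD : 1 ≤ D) (z : S.VV 1) (f : ∀ k, (S.F k).Ω → MvPolynomial (Fin (e + 1)) ℝ)
    (deg : ∀ᶠ k in UF, ∀ ω, (S.F k).μ ω ≠ 0 → (f k ω).totalDegree ≤ D)
    (hf : ∀ᶠ k in UF, ∀ ω ω', (S.F k).μ ω ≠ 0 → (S.F k).μ ω' ≠ 0 → (S.F k).Z ω ω' → La k ω ω' → f k ω = f k ω')
    (θ : ℝ) (hsm : ∀ η : ℝ, 0 < η → Typ (fun k ω => |MvPolynomial.eval (Fin.cons (z.v k ω 0) (Y.v k ω) :
      Fin (e + 1) → ℝ) (f k ω)| ≤ 2 ^ (η * (S.F k).n)))
    (hbig : ∀ η : ℝ, 0 < η → Typ (fun k ω => 2 ^ ((θ - η) * (S.F k).n) ≤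
      |MvPolynomial.eval (Fin.cons (z.v k ω 0) (Y.v k ω) : Fin (e + 1) → ℝ) (MvPolynomial.pderiv 0 (f k ω))|))
    (r : ℝ) (hr : r ≤ θ) (ε : ℝ) (hε : 0 < ε) (hε1 : ε ≤ 1) :
    ∃ idx : ∀ k, (S.F k).Ω → Option (Fin (D * D)), ∀ᶠ k in UF,
      h (fc (Setoid.ker (z.cellv r k))) (fc (La k ⊓ Setoid.ker (gcell Y ε k) ⊓ Setoid.ker (idx k) ⊓
        Setoid.ker (Y.cellv r k))) ≤ 3 * ε * (S.F k).n := by
  obtain ⟨K0, hK0, hb⟩ := z.bd
  have hK0' : S.Sub (fun k => K0 k + 1) := hK0.add (S.Sub_const zero_le_one)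
  have hcel : celm Y (fun _ => (1 : ℝ)) = Y.cellv 1 := rfl
  obtain ⟨K, B, idx, G, hB, hG, hfn, hco, hT⟩ := lgj Y La (fun _ => 1) hε (fun _ => hε1) (by
    rw [hcel]
    simpa using full) hD (fun k ω => z.v k ω 0) hK0' (by
      filter_upwards [hK0.1] with k hk
      linarith) (by
      filter_upwards [hb] with k hk ω hω
      exact (hk ω hω 0).trans (by linarith)) f deg hf θ
  refine ⟨idx, ?_⟩
  set E : ∀ k, (S.F k).Ω → Prop := fun k ω => ((|z.v k ω 0 - MvPolynomial.eval (Y.v k ω) (G k ω)| *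
        |MvPolynomial.eval (Fin.cons (z.v k ω 0) (Y.v k ω) : Fin (e + 1) → ℝ) (MvPolynomial.pderiv 0 (f k ω))| ≤
        D * |MvPolynomial.eval (Fin.cons (z.v k ω 0) (Y.v k ω) : Fin (e + 1) → ℝ) (f k ω)| + S.dl θ k *
          |MvPolynomial.eval (Fin.cons (z.v k ω 0) (Y.v k ω) : Fin (e + 1) → ℝ) (MvPolynomial.pderiv 0 (f k ω))|) ∧
      (|MvPolynomial.eval (Fin.cons (z.v k ω 0) (Y.v k ω) : Fin (e + 1) → ℝ) (f k ω)| ≤ 2 ^ (ε * (S.F k).n))) ∧
      2 ^ ((θ - ε) * (S.F k).n) ≤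
      |MvPolynomial.eval (Fin.cons (z.v k ω 0) (Y.v k ω) : Fin (e + 1) → ℝ) (MvPolynomial.pderiv 0 (f k ω))| with hE
  have hET : Typ E := (hT.and (hsm ε hε)).and (hbig ε hε)
  -- the constant
  set c1 : ℝ := 2 * (D + 1) with hc1
  set c2 : ℝ := (exps e K).card * (B * (K * 2)) with hc2
  have hc10 : 0 ≤ c1 := by positivity
  have hc20 : 0 ≤ c2 := by positivity
  set Kk : ℕ → ℝ := fun k => (c1 + c2 * (K0 k + 1)) * 2 ^ (2 * ε * (S.F k).n) with hKk
  have hmain : ∀ᶠ k in UF, ∀ ω ω', (S.F k).μ ω ≠ 0 → (S.F k).μ ω' ≠ 0 → E k ω → E k ω' → (S.F k).Z ω ω' →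
      (La k ⊓ Setoid.ker (gcell Y ε k) ⊓ Setoid.ker (idx k) ⊓ Setoid.ker (Y.cellv r k)) ω ω' →
      |z.v k ω 0 - z.v k ω' 0| ≤ Kk k * S.dl r k := by
    filter_upwards [hfn, hco, hK0.1] with k g1 g2 g3 ω ω' hω hω' hEω hEω' hZ hC
    have hn := (S.F k).pos
    obtain ⟨⟨⟨hLa, hgc⟩, hid⟩, hY⟩ := hC
    have hgc' : gcell Y ε k ω = gcell Y ε k ω' := hgc
    have hG' := g1 ω ω' hω hω' hZ hLa hgc' hid
    have hN1 := ngr_one S ε k
    have hN0 : 0 < ngr S ε k := by linarith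
    have hεn : 0 ≤ ε * (S.F k).n := by positivity
    have hdr := S.dl_pos r k
    have hY1 : ∀ i, |Y.v k ω i - Y.v k ω' i| ≤ S.dl r k := by
      intro i
      exact abs_sub_le_of_floor_eq hdr (congrFun hY i)
    have hθr : S.dl θ k ≤ S.dl r k := S.dl_anti hr k
    have hp : ∀ ω, E k ω → |z.v k ω 0 - MvPolynomial.eval (Y.v k ω) (G k ω)| ≤
        (D + 1) * (2 ^ (2 * ε * (S.F k).n) * S.dl r k) := by
      intro ω hEω
      refine (near_gr (Nat.cast_nonneg D) hEω.1.2 hEω.2 hEω.1.1 hεn).trans ?_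
      apply mul_le_mul_of_nonneg_left _ (by positivity)
      exact mul_le_mul_of_nonneg_left hθr (by positivity)
    have h1 := two_pts (G k ω) (hG k ω) (gcell Y ε k ω) hN0 (g2 ω) (Y.v k ω) (Y.v k ω') (fun i => rfl)
      (fun i => (congrFun hgc' i).symm) hdr.le hY1 (z.v k ω 0) (z.v k ω' 0) (hp ω hEω) (by
        rw [hG']
        exact hp ω' hEω')
    refine h1.trans ?_
    have hN2 : ngr S ε k ≤ 2 * 2 ^ (2 * ε * (S.F k).n) := by
      have h2 := ngr_le S ε k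
      rw [dl_inv] at h2
      have h3 : (2 : ℝ) ^ (ε * (S.F k).n) ≤ 2 ^ (2 * ε * (S.F k).n) :=
        Real.rpow_le_rpow_of_exponent_le (by norm_num) (by linarith)
      have h4 : (1 : ℝ) ≤ 2 ^ (2 * ε * (S.F k).n) := Real.one_le_rpow (by norm_num) (by linarith)
      linarith
    have h5 : (exps e K).card * (B * (K0 k + 1) * (K * (ngr S ε k * S.dl r k))) ≤
        (exps e K).card * (B * (K0 k + 1) * (K * (2 * 2 ^ (2 * ε * (S.F k).n) * S.dl r k))) := by
      gcongr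
    refine (add_le_add le_rfl h5).trans (le_of_eq ?_)
    rw [hKk, hc1, hc2]
    ring
  -- the entropy
  have hlog : ∀ᶠ k in UF, Real.logb 2 (Kk k + 2) / (S.F k).n ≤ 2 * ε + Real.logb 2 (c1 + c2 * (K0 k + 1) + 2) / (S.F k).n := by
    filter_upwards [hK0.1] with k g
    have hn := (S.F k).pos
    rw [← sub_le_iff_le_add, ← sub_nonneg]
    have h3 : Kk k + 2 ≤ (c1 + c2 * (K0 k + 1) + 2) * 2 ^ (2 * ε * (S.F k).n) := by
      have h4 : (1 : ℝ) ≤ 2 ^ (2 * ε * (S.F k).n) := Real.one_le_rpow (by norm_num) (by positivity)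
      rw [add_mul (c1 + c2 * (K0 k + 1))]
      show (c1 + c2 * (K0 k + 1)) * 2 ^ (2 * ε * (S.F k).n) + 2 ≤ _
      linarith
    have h6 : 0 < c1 + c2 * (K0 k + 1) + 2 := by
      have := mul_nonneg hc20 (by linarith : 0 ≤ K0 k + 1)
      linarith
    have h7 : 0 ≤ Kk k := mul_nonneg (by linarith [mul_nonneg hc20 (by linarith : 0 ≤ K0 k + 1)]) (by positivity)
    have h5 := Real.logb_le_logb_of_le (b := 2) (by norm_num) (by linarith) h3
    rw [Real.logb_mul h6.ne' (by positivity), Real.logb_rpow (by norm_num) (by norm_num)] at h5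
    have h8 := div_le_div_of_nonneg_right h5 hn.le
    rw [add_div, mul_div_assoc, div_self hn.ne', mul_one] at h8
    linarith
  have hs1 : S.Sub (fun k => c1 + c2 * (K0 k + 1)) := (S.Sub_const hc10).add ((S.Sub_const hc20).mul hK0')
  have hs2 : S.Sub (fun k => 4 * (K0 k + 1)) := (S.Sub_const (by norm_num)).mul hK0'
  have hlim : Tendsto (fun k => Real.logb 2 (c1 + c2 * (K0 k + 1) + 2) / (S.F k).n +
      ((Real.logb 2 (4 * (K0 k + 1) + 2) / (S.F k).n) + max r 0) * mass (res (S.F k).μ (fun ω => ¬ E k ω)) +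
      1 / (S.F k).n) UF (𝓝 (0 + (0 + max r 0) * 0 + 0)) :=
    (hs1.2.add ((hs2.2.add tendsto_const_nhds).mul hET)).add (S.div_n_tendsto 1)
  rw [zero_add, mul_zero, zero_add] at hlim
  filter_upwards [hmain, hb, hK0.1, hlog, hlim.eventually (gt_mem_nhds hε)] with k g1 g2 g3 g4 g5
  have hn := (S.F k).pos
  set A : ∀ k, Setoid (S.F k).Ω := fun k => La k ⊓ Setoid.ker (gcell Y ε k) ⊓ Setoid.ker (idx k) ⊓
    Setoid.ker (Y.cellv r k) with hA
  have h1 := rt_cell_le z r (K0 k + 1) (Kk k) (by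
    have := mul_nonneg hc20 (by linarith : 0 ≤ K0 k + 1)
    exact mul_nonneg (by linarith) (by positivity)) A (fun k ω => ¬ E k ω) k
    (fun ω hω i => (g2 ω hω i).trans (by linarith)) (by linarith) (fun ω ω' a b c d e i => by
      have hi : i = 0 := Subsingleton.elim _ _
      rw [hi]
      exact g1 ω ω' a b (not_not.mp c) (not_not.mp d) e.2 e.1)
  have h2 : h (fc (Setoid.ker (z.cellv r k))) (fc (A k)) / (S.F k).n =
      S.rt (fun k => Setoid.ker (z.cellv r k)) A k := by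
    rw [h_fc]
    rfl
  rw [← h2, div_le_iff₀ hn] at h1
  refine h1.trans ?_
  have hm0 : 0 ≤ mass (res (S.F k).μ (fun ω => ¬ E k ω)) := (S.F k).pb_nonneg _
  have h3 : (((1 : ℕ) : ℝ) * (Real.logb 2 (4 * (K0 k + 1)) + max r 0 * (S.F k).n)) / (S.F k).n ≤
      Real.logb 2 (4 * (K0 k + 1) + 2) / (S.F k).n + max r 0 := by
    rw [Nat.cast_one, one_mul, add_div, mul_div_assoc, div_self hn.ne', mul_one]
    apply add_le_add_left
    apply div_le_div_of_nonneg_right _ hn.le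
    exact Real.logb_le_logb_of_le (by norm_num) (by linarith) (by linarith)
  have h4 : (((1 : ℕ) : ℝ) * Real.logb 2 (Kk k + 2)) / (S.F k).n ≤
      2 * ε + Real.logb 2 (c1 + c2 * (K0 k + 1) + 2) / (S.F k).n := by
    rw [Nat.cast_one, one_mul]
    exact g4
  have h5 := mul_le_mul_of_nonneg_right h3 hm0
  have h6 : (((1 : ℕ) : ℝ) * Real.logb 2 (Kk k + 2)) / (S.F k).n +
      (((1 : ℕ) : ℝ) * (Real.logb 2 (4 * (K0 k + 1)) + max r 0 * (S.F k).n)) / (S.F k).n *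
        mass (res (S.F k).μ (fun ω => ¬ E k ω)) + 1 / (S.F k).n ≤ 3 * ε := by linarith
  exact mul_le_mul_of_nonneg_right h6 hn.le

/-- SHEETS OVER FULL COORDINATES: the digits of level `r ≤ θ` of `z` are known to `La` and the digits of level `r` of
`Y` -/
theorem sheet (Y : S.VV e) (La : ∀ k, Setoid (S.F k).Ω)
    (full : Tendsto (fun k => h (fc (Setoid.ker (Y.cellv 1 k))) (fc (La k)) / (S.F k).n) UF (𝓝 e))
    {D : ℕ} (hD : 1 ≤ D) (z : S.VV 1) (f : ∀ k, (S.F k).Ω → MvPolynomial (Fin (e + 1)) ℝ)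
    (deg : ∀ᶠ k in UF, ∀ ω, (S.F k).μ ω ≠ 0 → (f k ω).totalDegree ≤ D)
    (hf : ∀ᶠ k in UF, ∀ ω ω', (S.F k).μ ω ≠ 0 → (S.F k).μ ω' ≠ 0 → (S.F k).Z ω ω' → La k ω ω' → f k ω = f k ω')
    (θ : ℝ) (hsm : ∀ η : ℝ, 0 < η → Typ (fun k ω => |MvPolynomial.eval (Fin.cons (z.v k ω 0) (Y.v k ω) :
      Fin (e + 1) → ℝ) (f k ω)| ≤ 2 ^ (η * (S.F k).n)))
    (hbig : ∀ η : ℝ, 0 < η → Typ (fun k ω => 2 ^ ((θ - η) * (S.F k).n) ≤
      |MvPolynomial.eval (Fin.cons (z.v k ω 0) (Y.v k ω) : Fin (e + 1) → ℝ) (MvPolynomial.pderiv 0 (f k ω))|))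
    (r : ℝ) (h0 : 0 ≤ r) (hr : r ≤ θ) :
    PLe (fun k => fc (Setoid.ker (z.cellv r k))) (fun k => fc (La k ⊓ Setoid.ker (Y.cellv r k))) := by
  rcases h0.eq_or_lt with h0 | h0
  · subst h0
    obtain ⟨K0, hK0, hb⟩ := z.bd
    refine PLe_cell z 0 _ (fun k => 2 * K0 k) ((S.Sub_const zero_le_two).mul hK0) ?_
    filter_upwards [hb] with k hk ω ω' a b _ _ i
    rw [S.dl_zero, mul_one]
    have h1 := abs_sub (z.v k ω i) (z.v k ω' i)
    have h2 := hk ω a i
    have h3 := hk ω' b i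
    linarith
  show Tendsto _ UF (𝓝 0)
  rw [Metric.tendsto_nhds]
  intro δ hδ
  set ε : ℝ := min (min r 1) (δ / 8) with hε
  have hε0 : 0 < ε := lt_min (lt_min h0 one_pos) (by linarith)
  have hεr : ε ≤ r := (min_le_left _ _).trans (min_le_left _ _)
  have hε1 : ε ≤ 1 := (min_le_left _ _).trans (min_le_right _ _)
  have hεδ : ε ≤ δ / 8 := min_le_right _ _
  obtain ⟨idx, hidx⟩ := sheet_aux Y La full hD z f deg hf θ hsm hbig r hr ε hε0 hε1
  set A : ∀ k, Setoid (S.F k).Ω := fun k => La k ⊓ Setoid.ker (Y.cellv r k) with hA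
  set C : ∀ k, Setoid (S.F k).Ω := fun k => La k ⊓ Setoid.ker (gcell Y ε k) ⊓ Setoid.ker (idx k) ⊓
        Setoid.ker (Y.cellv r k) with hC
  have p1 : PLe (fun k => fc (Setoid.ker (gcell Y ε k))) (fun k => fc (A k)) := by
    apply gcell_PLe Y hε0.le A (fun _ => 1) (S.Sub_const zero_le_one)
    refine Eventually.of_forall fun k ω ω' _ _ _ h i => ?_
    rw [one_mul]
    exact (abs_sub_le_of_floor_eq (S.dl_pos r k) (congrFun h.2 i)).trans (S.dl_anti hεr k)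
  have p2 : PLe (fun k => fc (Setoid.ker (idx k))) (fun k => fc (A k)) := fin_PLe idx _
  have p3 : PLe (fun k => fc (C k)) (fun k => fc (A k)) := by
    have e1 : (fun k => (fc (C k) : FL (S.F k))) = fun k => fc (A k) ⊔ (fc (Setoid.ker (gcell Y ε k)) ⊔
        fc (Setoid.ker (idx k))) := by
      funext k
      rw [← fc_inf, ← fc_inf]
      congr 1
      simp only [hA, hC]
      ac_rfl
    rw [e1]
    exact (PLe.refl _).sup_le (p1.sup_le p2)
  have p3' : Tendsto (fun k => h (fc (C k)) (fc (A k)) / (S.F k).n) UF (𝓝 0) := p3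
  filter_upwards [hidx, p3'.eventually (gt_mem_nhds hε0)] with k g1 g2
  have hn := (S.F k).pos
  rw [Real.dist_eq, sub_zero, abs_of_nonneg (div_nonneg (h_nonneg _ _) hn.le), div_lt_iff₀ hn]
  rw [div_lt_iff₀ hn] at g2
  have g3 := h_triangle' (fc (Setoid.ker (z.cellv r k))) (fc (C k)) (fc (A k))
  have g4 : 3 * ε * (S.F k).n + ε * (S.F k).n < δ * (S.F k).n := by
    have : ε * (S.F k).n ≤ δ / 8 * (S.F k).n := mul_le_mul_of_nonneg_right hεδ hn.le
    have : 0 < δ * (S.F k).n := by positivity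
    linarith
  have g1' : h (fc (Setoid.ker (z.cellv r k))) (fc (C k)) ≤ 3 * ε * (S.F k).n := g1
  linarith

end

end Pool.Agent.Helper76.DIM
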