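import Pool.Agent.Helper76.DIM.Cor
import Pool.Agent.Helper76.RL.Fof

/-! SHEETS FROM FORMS. Over a partition `La` which knows a form of degree `D` in the coordinates `(z, Y)`, small at the
point, with `Y` full over `La` and `1 + J_zz ≥ 2 ^ (2 θ n)`: the digits of level `r ≤ θ` of `z` are known to `La` and the
digits of level `r` of `Y`. No optimality is used. -/

set_option autoImplicit false

namespace Pool.Agent.Helper76.DIM

open Finset Filter Topology Matrix Pool.Agent.Helper69.RK Pool.Agent.Helper31.EC Pool.Agent.Helper31.EC.Sp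
open Pool.Agent.Helper40.EL Pool.Agent.Helper89.LX Pool.Agent.Helper3.LF Pool.Agent.Helper84.MT
open Pool.Agent.Helper63.FRT
open Pool.Agent.Helper95.LF (PdM exists_factor)
open Pool.Agent.Helper76.RL (fam fam_deg trp eval_trp pderiv_trp Rw)

noncomputable section

/-- a root of a form -/
def fac {κ : Type} [Fintype κ] [DecidableEq κ] (A : Matrix κ κ ℝ) : Matrix κ κ ℝ :=
  open Classical in if h : PdM A then (exists_factor A h).choose else 0

lemma fac_spec {κ : Type} [Fintype κ] [DecidableEq κ] {A : Matrix κ κ ℝ} (h : PdM A) : A = (fac A).transpose * fac A := by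
  unfold fac
  rw [dif_pos h]
  exact (exists_factor A h).choose_spec.1

variable {m D : ℕ}

/-- a row is small where the form is small -/
lemma row_sq_le {A : Matrix (Mon m D) (Mon m D) ℝ} (hA : PdM A) (r : ℝ) (x : Fin m → ℝ)
    (k : Mon m D × (Fin m → Fin (D + 1))) : (MvPolynomial.eval x (fam (fac A) r (Sum.inl k))) ^ 2 ≤ phi r A x := by
  show (MvPolynomial.eval x (trp D r k.2 (pol ((fac A) k.1)))) ^ 2 ≤ _
  rw [eval_trp]
  conv_rhs => rw [fac_spec hA, phi_rows]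
  have h3 : (MvPolynomial.eval (nodp D x r k.2) (pol ((fac A) k.1))) ^ 2 ≤ ph D (pol ((fac A) k.1)) r x :=
    Finset.single_le_sum (f := fun j => (MvPolynomial.eval (nodp D x r j) (pol ((fac A) k.1))) ^ 2)
      (fun _ _ => sq_nonneg _) (Finset.mem_univ k.2)
  exact h3.trans (Finset.single_le_sum (f := fun k => ph D (pol ((fac A) k)) r x)
    (fun _ _ => ph_nonneg _ _ _) (Finset.mem_univ k.1))

/-- the gradient of the form in one direction is the sum of the squares of the derivatives of the rows -/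
lemma Jq_rows {A : Matrix (Mon m D) (Mon m D) ℝ} (hA : PdM A) (r : ℝ) (x : Fin m → ℝ) (a : Fin m) :
    Jq r A x a a = ∑ k : Mon m D × (Fin m → Fin (D + 1)),
      (MvPolynomial.eval x (MvPolynomial.pderiv a (fam (fac A) r (Sum.inl k)))) ^ 2 := by
  conv_lhs => rw [fac_spec hA]
  rw [Jq_apply, Fintype.sum_prod_type, Finset.sum_comm]
  refine Finset.sum_congr rfl fun j _ => ?_
  rw [← Matrix.mulVec_mulVec, Matrix.dotProduct_mulVec, Matrix.vecMul_transpose]
  unfold dotProduct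
  refine Finset.sum_congr rfl fun k _ => ?_
  have h3 : MvPolynomial.eval x (MvPolynomial.pderiv a (fam (fac A) r (Sum.inl (k, j)))) =
      (fac A *ᵥ Pool.Agent.Helper3.LF.dd a (nodp D x r j)) k := by
    show MvPolynomial.eval x (MvPolynomial.pderiv a (trp D r j (pol (fac A k)))) = _
    rw [pderiv_trp, eval_trp, eval_pderiv_pol]
    rfl
  rw [h3, sq]

/-- one row has a large derivative -/
lemma exists_row [Nonempty (Mon m D × (Fin m → Fin (D + 1)))] {A : Matrix (Mon m D) (Mon m D) ℝ} (hA : PdM A) (r : ℝ)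
    (x : Fin m → ℝ) (a : Fin m) : ∃ k : Mon m D × (Fin m → Fin (D + 1)), Jq r A x a a ≤
      Fintype.card (Mon m D × (Fin m → Fin (D + 1))) *
      (MvPolynomial.eval x (MvPolynomial.pderiv a (fam (fac A) r (Sum.inl k)))) ^ 2 := by
  obtain ⟨k, -, hk⟩ := Finset.exists_max_image (Finset.univ : Finset (Mon m D × (Fin m → Fin (D + 1))))
    (fun k => (MvPolynomial.eval x (MvPolynomial.pderiv a (fam (fac A) r (Sum.inl k)))) ^ 2) Finset.univ_nonempty
  refine ⟨k, ?_⟩
  rw [Jq_rows hA]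
  have h1 := Finset.sum_le_card_nsmul Finset.univ
    (fun k => (MvPolynomial.eval x (MvPolynomial.pderiv a (fam (fac A) r (Sum.inl k)))) ^ 2) _ (fun i hi => hk i hi)
  rw [nsmul_eq_mul] at h1
  exact h1

/-- the other coordinates -/
def tlv {S : Sp} {e : ℕ} (P : S.VV (e + 1)) : S.VV e where
  v := fun k ω => Fin.tail (P.v k ω)
  bd := by
    obtain ⟨K, hK, h⟩ := P.bd
    exact ⟨K, hK, by filter_upwards [h] with k hk ω hω i using hk ω hω i.succ⟩

/-- the first coordinate -/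
def hdv {S : Sp} {e : ℕ} (P : S.VV (e + 1)) : S.VV 1 where
  v := fun k ω _ => P.v k ω 0
  bd := by
    obtain ⟨K, hK, h⟩ := P.bd
    exact ⟨K, hK, by filter_upwards [h] with k hk ω hω _ using hk ω hω 0⟩

lemma cons_hd_tl {S : Sp} {e : ℕ} (P : S.VV (e + 1)) (k : ℕ) (ω : (S.F k).Ω) :
    (Fin.cons ((hdv P).v k ω 0) ((tlv P).v k ω) : Fin (e + 1) → ℝ) = P.v k ω := Fin.cons_self_tail _

/-- numbers: the derivative of the row -/
lemma num_row {J d c θ η n : ℝ} (h1 : 2 ^ (2 * (θ - η / 2) * n) ≤ 1 + J) (h2 : J ≤ c * d ^ 2) (hc : 0 < c)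
    (hn : 2 ≤ 2 * (θ - η / 2) * n) (hcn : Real.logb 2 (2 * c) ≤ η * n) : 2 ^ ((θ - η) * n) ≤ |d| := by
  have h3 : (4 : ℝ) ≤ 2 ^ (2 * (θ - η / 2) * n) := by
    have := Real.rpow_le_rpow_of_exponent_le (by norm_num : (1 : ℝ) ≤ 2) hn
    have e : (2 : ℝ) ^ (2 : ℝ) = 4 := by norm_num
    rwa [e] at this
  have h4 : 2 ^ (2 * (θ - η / 2) * n) ≤ 2 * c * d ^ 2 := by linarith
  have h5 : 2 * c ≤ 2 ^ (η * n) := by
    rw [← Real.logb_le_iff_le_rpow (by norm_num) (by positivity)]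
    exact hcn
  have h6 : (2 ^ ((θ - η) * n)) ^ 2 * 2 ^ (η * n) ≤ d ^ 2 * 2 ^ (η * n) := by
    have e1 : ((2 : ℝ) ^ ((θ - η) * n)) ^ 2 * 2 ^ (η * n) = 2 ^ (2 * (θ - η / 2) * n) := by
      rw [sq, ← Real.rpow_add (by norm_num), ← Real.rpow_add (by norm_num)]
      congr 1
      ring
    rw [e1]
    refine h4.trans ?_
    have := mul_le_mul_of_nonneg_right h5 (sq_nonneg d)
    linarith
  have h7 : (2 ^ ((θ - η) * n)) ^ 2 ≤ d ^ 2 := le_of_mul_le_mul_right h6 (by positivity)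
  rw [← sq_abs d] at h7
  exact (sq_le_sq₀ (by positivity) (abs_nonneg _)).mp h7

variable {S : Sp} {e : ℕ}

/-- a boundedly valued variable can be added to a label without loss of fullness -/
lemma full_add {α : Type} [Fintype α] (Y : S.VV e) (La : ∀ k, Setoid (S.F k).Ω) (X : ∀ k, (S.F k).Ω → α)
    (full : Tendsto (fun k => h (fc (Setoid.ker (Y.cellv 1 k))) (fc (La k)) / (S.F k).n) UF (𝓝 e)) :
    Tendsto (fun k => h (fc (Setoid.ker (Y.cellv 1 k))) (fc (La k ⊓ Setoid.ker (X k))) / (S.F k).n) UF (𝓝 e) := by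
  have h1 : PLe (fun k => fc (La k ⊓ Setoid.ker (X k))) (fun k => fc (La k)) := by
    have e1 : (fun k => (fc (La k ⊓ Setoid.ker (X k)) : FL (S.F k))) = fun k => fc (La k) ⊔ fc (Setoid.ker (X k)) := by
      funext k
      exact fc_inf _ _
    rw [e1]
    exact (PLe.refl _).sup_le (fin_PLe X _)
  have h1' : Tendsto (fun k => h (fc (La k ⊓ Setoid.ker (X k))) (fc (La k)) / (S.F k).n) UF (𝓝 0) := h1
  have h2 := full.sub h1'
  rw [sub_zero] at h2
  refine tendsto_of_tendsto_of_tendsto_of_le_of_le h2 full (fun k => ?_) (fun k => ?_)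
  · show h (fc (Setoid.ker (Y.cellv 1 k))) (fc (La k)) / (S.F k).n - h (fc (La k ⊓ Setoid.ker (X k))) (fc (La k)) /
      (S.F k).n ≤ h (fc (Setoid.ker (Y.cellv 1 k))) (fc (La k ⊓ Setoid.ker (X k))) / (S.F k).n
    rw [← sub_div]
    apply div_le_div_of_nonneg_right _ (S.F k).pos.le
    have := h_triangle' (fc (Setoid.ker (Y.cellv 1 k))) (fc (La k ⊓ Setoid.ker (X k))) (fc (La k))
    linarith
  · show h (fc (Setoid.ker (Y.cellv 1 k))) (fc (La k ⊓ Setoid.ker (X k))) / (S.F k).n ≤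
      h (fc (Setoid.ker (Y.cellv 1 k))) (fc (La k)) / (S.F k).n
    apply div_le_div_of_nonneg_right _ (S.F k).pos.le
    rw [fc_inf]
    exact h_anti le_sup_left

/-- SHEETS FROM FORMS -/
theorem sheet_form {D : ℕ} (hD : 1 ≤ D) (P : S.VV (e + 1)) (La : ∀ k, Setoid (S.F k).Ω)
    (full : Tendsto (fun k => h (fc (Setoid.ker ((tlv P).cellv 1 k))) (fc (La k)) / (S.F k).n) UF (𝓝 e))
    (g : ∀ k, (S.F k).Ω → Matrix (Mon (e + 1) D) (Mon (e + 1) D) ℝ)
    (pd : ∀ᶠ k in UF, ∀ ω, (S.F k).μ ω ≠ 0 → PdM (g k ω))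
    (ms : ∀ᶠ k in UF, ∀ ω ω', (S.F k).μ ω ≠ 0 → (S.F k).μ ω' ≠ 0 → (S.F k).Z ω ω' → La k ω ω' → g k ω = g k ω')
    (sm : ∀ η : ℝ, 0 < η → Typ (fun k ω => phi (S.dl 1 k) (g k ω) (P.v k ω) ≤ 2 ^ (η * (S.F k).n)))
    (θ : ℝ) (hbig : ∀ η : ℝ, 0 < η → Typ (fun k ω => 2 ^ (2 * (θ - η) * (S.F k).n) ≤
      1 + Jq (S.dl 1 k) (g k ω) (P.v k ω) 0 0))
    (r : ℝ) (h0 : 0 ≤ r) (hr : r ≤ θ) :
    PLe (fun k => fc (Setoid.ker ((hdv P).cellv r k))) (fun k => fc (La k ⊓ Setoid.ker ((tlv P).cellv r k))) := by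
  classical
  rcases h0.eq_or_lt with h0' | h0'
  · subst h0'
    obtain ⟨K0, hK0, hb⟩ := (hdv P).bd
    refine PLe_cell (hdv P) 0 _ (fun k => 2 * K0 k) ((S.Sub_const zero_le_two).mul hK0) ?_
    filter_upwards [hb] with k hk ω ω' a b _ _ i
    rw [S.dl_zero, mul_one]
    have h1 := abs_sub ((hdv P).v k ω i) ((hdv P).v k ω' i)
    have h2 := hk ω a i
    have h3 := hk ω' b i
    linarith
  have hθ : 0 < θ := by linarith
  have hne : Nonempty (Mon (e + 1) D × (Fin (e + 1) → Fin (D + 1))) := ⟨(Mon.zero _ _, fun _ => 0)⟩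
  set α := Mon (e + 1) D × (Fin (e + 1) → Fin (D + 1)) with hα
  set c : ℝ := ((Fintype.card α : ℕ) : ℝ) with hc
  have hc0 : 0 < c := by
    rw [hc]
    exact_mod_cast Fintype.card_pos
  -- the row
  set ρ : ∀ k, (S.F k).Ω → α := fun k ω => if h : PdM (g k ω) then
    (exists_row h (S.dl 1 k) (P.v k ω) 0).choose else Classical.arbitrary _ with hρ
  have hρs : ∀ k ω, PdM (g k ω) → Jq (S.dl 1 k) (g k ω) (P.v k ω) 0 0 ≤ c *
      (MvPolynomial.eval (P.v k ω) (MvPolynomial.pderiv 0 (fam (fac (g k ω)) (S.dl 1 k) (Sum.inl (ρ k ω))))) ^ 2 := by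
    intro k ω h
    have h1 : ρ k ω = (exists_row h (S.dl 1 k) (P.v k ω) 0).choose := dif_pos h
    rw [h1]
    exact (exists_row h (S.dl 1 k) (P.v k ω) 0).choose_spec
  have hfull := full_add (tlv P) La ρ full
  have hsh := sheet (tlv P) (fun k => La k ⊓ Setoid.ker (ρ k)) hfull hD (hdv P)
    (fun k ω => fam (fac (g k ω)) (S.dl 1 k) (Sum.inl (ρ k ω))) (Eventually.of_forall fun k ω _ => fam_deg hD _ _ _) (by
      filter_upwards [ms] with k hk ω ω' a b c d
      rw [hk ω ω' a b c d.1, show ρ k ω = ρ k ω' from d.2]) θ (fun η hη => ?_) (fun η hη => ?_) r h0 hr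
  · refine hsh.trans ?_
    have e1 : (fun k => (fc (La k ⊓ Setoid.ker (ρ k) ⊓ Setoid.ker ((tlv P).cellv r k)) : FL (S.F k))) =
        fun k => fc (La k ⊓ Setoid.ker ((tlv P).cellv r k)) ⊔ fc (Setoid.ker (ρ k)) := by
      funext k
      rw [← fc_inf]
      congr 1
      ac_rfl
    rw [e1]
    exact (PLe.refl _).sup_le (fin_PLe ρ _)
  · refine (sm η hη).mono ?_
    filter_upwards [pd] with k hk ω hω h1
    rw [cons_hd_tl]
    have h2 := row_sq_le (hk ω hω) (S.dl 1 k) (P.v k ω) (ρ k ω)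
    have h3 : (1 : ℝ) ≤ 2 ^ (η * (S.F k).n) := Real.one_le_rpow (by norm_num) (mul_nonneg hη.le (S.F k).pos.le)
    have h4 := h2.trans h1
    apply abs_le_of_sq_le_sq _ (by linarith)
    exact h4.trans (by nlinarith)
  · set η' : ℝ := min η θ with hη'
    have hη'0 : 0 < η' := lt_min hη hθ
    have hl1 := S.div_n_tendsto (2 / θ)
    have hl2 := S.div_n_tendsto (Real.logb 2 (2 * c))
    refine (hbig (η' / 2) (by linarith)).mono ?_
    filter_upwards [pd, hl1.eventually (gt_mem_nhds (show (0 : ℝ) < 1 by norm_num)),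
      hl2.eventually (gt_mem_nhds hη'0)] with k hk g1 g2 ω hω h1
    rw [cons_hd_tl]
    have hn := (S.F k).pos
    have h2 := hρs k ω (hk ω hω)
    rw [div_lt_iff₀ hn, one_mul, div_lt_iff₀ hθ] at g1
    rw [div_lt_iff₀ hn] at g2
    have h3 : η' ≤ θ := min_le_right _ _
    have h4 := num_row (η := η') h1 h2 hc0 (by nlinarith) (by linarith)
    refine le_trans ?_ h4
    apply Real.rpow_le_rpow_of_exponent_le (by norm_num)
    apply mul_le_mul_of_nonneg_right _ hn.le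
    have : η' ≤ η := min_le_left _ _
    linarith

end

end Pool.Agent.Helper76.DIM
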