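import Pool.Agent.Helper63.FRT.Lgj
import Pool.Agent.Helper76.RL.Fof

/-! LOCAL GRAPHS, ALGEBRAIC FORM: as helper63's `lgj`, but the graph is the analytic branch itself (simple root of a
polynomial of bounded degree, holomorphic on a large ball in the coordinates of the grid cell), not its Taylor
polynomial. -/

set_option autoImplicit false

namespace Pool.Agent.Helper76.DIM

open Finset Filter Topology Matrix Metric Pool.Agent.Helper69.RK Pool.Agent.Helper31.EC Pool.Agent.Helper31.EC.Sp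
open Pool.Agent.Helper40.EL Pool.Agent.Helper89.LX Pool.Agent.Helper3.LF Pool.Agent.Helper84.MT
open Pool.Agent.Helper63.FRT
open Pool.Agent.Helper76.RL (excf card_excf cexc totalDegree_map_le' cB cB_one chart_one AlgR algR_const algR_smul gp rc)

noncomputable section

variable {e : ℕ}

/-- `G` are the roots over the grid cell `g`, as analytic functions -/
def IsGa (D : ℕ) (H : MvPolynomial (Fin (e + 1)) ℝ) (N : ℕ) (g : Fin e → Fin N)
    (G : Fin (D * D) → (Fin e → ℂ) → ℂ) : Prop :=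
  (∀ i, DifferentiableOn ℂ (G i) (ball 0 (√N / cB e D)) ∧ (∀ y ∈ ball (0 : Fin e → ℂ) (√N / cB e D), ‖G i y‖ ≤ 3) ∧
    AlgR D (√N / cB e D) (G i)) ∧
    ∀ (t : Fin e → ℝ) (u : ℝ), (∀ i, 0 ≤ t i ∧ t i ≤ 1) → |u| ≤ 1 →
      (|u| * |MvPolynomial.eval (Fin.cons u (ptc N g t) : Fin (e + 1) → ℝ) (MvPolynomial.pderiv 0 H)| ≤
        D * |MvPolynomial.eval (Fin.cons u (ptc N g t) : Fin (e + 1) → ℝ) H|) ∨
      ∃ i, ‖(u : ℂ) - G i (rc t)‖ * |MvPolynomial.eval (Fin.cons u (ptc N g t) : Fin (e + 1) → ℝ)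
        (MvPolynomial.pderiv 0 H)| ≤ D * |MvPolynomial.eval (Fin.cons u (ptc N g t) : Fin (e + 1) → ℝ) H|

/-- a good cell -/
theorem lga_one (e D : ℕ) (hD : 1 ≤ D) (H : MvPolynomial (Fin (e + 1)) ℝ) (hH : H ≠ 0) (hHD : H.totalDegree ≤ D)
    (N : ℕ) (hN : 16 * cB e D ^ 2 ≤ N) (g : Fin e → Fin N)
    (hg : g ∉ excf D (1 / √N) N (MvPolynomial.map (algebraMap ℝ ℂ) H)) :
    ∃ G : Fin (D * D) → (Fin e → ℂ) → ℂ, IsGa D H N g G := by
  have hcB := cB_one e D
  have hcB0 : 0 < cB e D := by linarith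
  have hN1 : (1 : ℝ) ≤ N := by
    refine le_trans ?_ hN
    nlinarith
  have hNpos : 0 < N := by
    have : (0 : ℝ) < N := by linarith
    exact_mod_cast this
  have hN0 : (0 : ℝ) < N := by exact_mod_cast hNpos
  have hsq : 4 * cB e D ≤ √N := by
    rw [Real.le_sqrt (by positivity) hN0.le]
    have h2 : (4 * cB e D) ^ 2 = 16 * cB e D ^ 2 := by ring
    rw [h2]
    exact hN
  have hHc : MvPolynomial.map (algebraMap ℝ ℂ) H ≠ 0 := by
    intro h
    apply hH
    apply MvPolynomial.map_injective (algebraMap ℝ ℂ) (algebraMap ℝ ℂ).injective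
    rw [h, map_zero]
  obtain ⟨G', hG1, hG2⟩ := chart_one hD hNpos hHc ((totalDegree_map_le' H).trans hHD) hg
  refine ⟨G', hG1, ?_⟩
  intro t u ht hu
  set x : Fin e → ℝ := ptc N g t with hx
  by_cases hder : MvPolynomial.eval (Fin.cons u x : Fin (e + 1) → ℝ) (MvPolynomial.pderiv 0 H) = 0
  · left
    rw [hder, abs_zero, mul_zero]
    positivity
  obtain ⟨r, hr1, hr2⟩ := near_root0 H D hHD x u hder
  have hu0 := abs_nonneg (MvPolynomial.eval (Fin.cons u x : Fin (e + 1) → ℝ) (MvPolynomial.pderiv 0 H))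
  by_cases hr : ‖r‖ ≤ 2
  · right
    have hy : rc t ∈ ball (0 : Fin e → ℂ) (√N / cB e D) := by
      rw [mem_ball_zero_iff]
      have h1 : ‖rc t‖ ≤ 1 := by
        rw [pi_norm_le_iff_of_nonneg zero_le_one]
        intro i
        show ‖((t i : ℝ) : ℂ)‖ ≤ 1
        rw [Complex.norm_real, Real.norm_eq_abs, abs_le]
        constructor
        · linarith [(ht i).1]
        · exact (ht i).2
      refine lt_of_le_of_lt h1 ?_
      rw [lt_div_iff₀ hcB0]
      linarith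
    have hpt : (gp N g + (N : ℂ)⁻¹ • rc t : Fin e → ℂ) = rc x := by
      funext i
      show ((g i : ℕ) : ℂ) / N + (N : ℂ)⁻¹ * ((t i : ℝ) : ℂ) = ((((g i : ℕ) + t i) / N : ℝ) : ℂ)
      push_cast
      field_simp
    obtain ⟨i, hi⟩ := hG2 (rc t) hy r hr (by rw [hpt]; exact hr1)
    refine ⟨i, ?_⟩
    rw [hi]
    exact hr2
  · left
    push Not at hr
    have h1 : |u| ≤ ‖(u : ℂ) - r‖ := by
      have h2 : ‖r‖ - ‖(u : ℂ)‖ ≤ ‖(u : ℂ) - r‖ := by
        rw [norm_sub_rev]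
        exact norm_sub_norm_le _ _
      rw [Complex.norm_real, Real.norm_eq_abs] at h2
      linarith
    exact (mul_le_mul_of_nonneg_right h1 hu0).trans hr2

open Classical in
/-- a choice of the roots over the grid cell -/
def chGa (D : ℕ) (H : MvPolynomial (Fin (e + 1)) ℝ) (N : ℕ) (g : Fin e → Fin N) :
    Fin (D * D) → (Fin e → ℂ) → ℂ :=
  if h : ∃ G, IsGa D H N g G then h.choose else fun _ _ => 0

theorem chGa_spec {D : ℕ} {H : MvPolynomial (Fin (e + 1)) ℝ} {N : ℕ} {g : Fin e → Fin N}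
    (h : ∃ G, IsGa D H N g G) : IsGa D H N g (chGa D H N g) := by
  unfold chGa
  rw [dif_pos h]
  exact h.choose_spec

theorem chGa_bd (D : ℕ) (hD : 1 ≤ D) (H : MvPolynomial (Fin (e + 1)) ℝ) (N : ℕ) (g : Fin e → Fin N)
    (i : Fin (D * D)) : DifferentiableOn ℂ (chGa D H N g i) (ball 0 (√N / cB e D)) ∧
      (∀ y ∈ ball (0 : Fin e → ℂ) (√N / cB e D), ‖chGa D H N g i y‖ ≤ 3) ∧ AlgR D (√N / cB e D) (chGa D H N g i) := by
  by_cases h : ∃ G, IsGa D H N g G
  · exact (chGa_spec h).1 i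
  · unfold chGa
    rw [dif_neg h]
    refine ⟨differentiableOn_const _, fun y _ => ?_, algR_const hD _ _⟩
    rw [norm_zero]
    norm_num

/-- the function of the grid cell `c` and of the index, in the coordinates of the grid cell -/
def Ga (D : ℕ) (K0 : ℝ) (M : ℕ) (f : MvPolynomial (Fin (e + 1)) ℝ) (c : Fin e → ℤ) :
    Option (Fin (D * D)) → (Fin e → ℂ) → ℂ
  | none => fun _ => 0
  | some i => fun y => ((K0 : ℝ) : ℂ) * chGa D (Hs K0 f (ipt M c)) (M + 1) (gix M c) i y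

theorem Ga_bd (D : ℕ) (hD : 1 ≤ D) {K0 : ℝ} (hK0 : 0 < K0) (M : ℕ) (f : MvPolynomial (Fin (e + 1)) ℝ)
    (c : Fin e → ℤ) (i : Option (Fin (D * D))) :
    DifferentiableOn ℂ (Ga D K0 M f c i) (ball 0 (√((M + 1 : ℕ) : ℝ) / cB e D)) ∧
      (∀ y ∈ ball (0 : Fin e → ℂ) (√((M + 1 : ℕ) : ℝ) / cB e D), ‖Ga D K0 M f c i y‖ ≤ 3 * K0) ∧
      AlgR D (√((M + 1 : ℕ) : ℝ) / cB e D) (Ga D K0 M f c i) := by
  rcases i with _ | i
  · refine ⟨differentiableOn_const _, fun y _ => ?_, algR_const hD _ _⟩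
    show ‖(0 : ℂ)‖ ≤ _
    rw [norm_zero]
    positivity
  · obtain ⟨h1, h2, h3⟩ := chGa_bd D hD (Hs K0 f (ipt M c)) (M + 1) (gix M c) i
    refine ⟨h1.const_mul _, fun y hy => ?_, algR_smul h3 (by exact_mod_cast hK0.ne')⟩
    show ‖((K0 : ℝ) : ℂ) * _‖ ≤ _
    rw [norm_mul, Complex.norm_real, Real.norm_eq_abs, abs_of_pos hK0, mul_comm 3]
    exact mul_le_mul_of_nonneg_left (h2 y hy) hK0.le

/-- LOCAL GRAPHS at a point over a good grid cell -/
theorem lga_pt {D : ℕ} (hD : 1 ≤ D) {K0 : ℝ} (hK0 : 0 < K0) (f : MvPolynomial (Fin (e + 1)) ℝ)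
    (hf : f.totalDegree ≤ D) (M : ℕ) (hM : 16 * cB e D ^ 2 ≤ (M : ℝ) + 1)
    (Y : Fin e → ℝ) (z : ℝ) (hz : |z| ≤ K0) (c : Fin e → ℤ) (hc : ∀ i, c i = ⌊((M : ℝ) + 1) * Y i⌋)
    (hg : Hs K0 f (ipt M c) ≠ 0 → gix M c ∉ excf D (1 / √((M + 1 : ℕ) : ℝ)) (M + 1)
      (MvPolynomial.map (algebraMap ℝ ℂ) (Hs K0 f (ipt M c)))) :
    ∃ i : Option (Fin (D * D)), ‖(z : ℂ) - Ga D K0 M f c i (rc fun j => ((M : ℝ) + 1) * Y j - c j)‖ *
      |MvPolynomial.eval (Fin.cons z Y : Fin (e + 1) → ℝ) (MvPolynomial.pderiv 0 f)| ≤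
      D * |MvPolynomial.eval (Fin.cons z Y : Fin (e + 1) → ℝ) f| := by
  have hN : (0 : ℝ) < (M : ℝ) + 1 := by positivity
  set t : Fin e → ℝ := fun i => ((M : ℝ) + 1) * Y i - c i with ht
  have ht01 : ∀ i, 0 ≤ t i ∧ t i ≤ 1 := by
    intro i
    have h1 := Int.floor_le (((M : ℝ) + 1) * Y i)
    have h2 := Int.lt_floor_add_one (((M : ℝ) + 1) * Y i)
    simp only [ht]
    rw [hc i]
    constructor <;> linarith
  set u : ℝ := z / K0 with hu
  have hu1 : |u| ≤ 1 := by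
    rw [hu, abs_div, abs_of_pos hK0, div_le_one hK0]
    exact hz
  have hzu : K0 * u = z := by
    rw [hu]
    field_simp
  have hpt : (fun i => (ipt M c i : ℝ) + ptc (M + 1) (gix M c) t i) = Y := by
    funext i
    unfold ptc
    have h1 := ipt_gix M c i
    push_cast
    have h2 : ((gix M c i : ℕ) : ℝ) = (c i : ℝ) - ((M : ℝ) + 1) * (ipt M c i : ℝ) := by linarith
    rw [h2]
    simp only [ht]
    field_simp
    ring
  have e1 := Hs_eval K0 f (ipt M c) u (ptc (M + 1) (gix M c) t)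
  have e2 := Hs_pd K0 f (ipt M c) u (ptc (M + 1) (gix M c) t)
  rw [hzu, hpt] at e1 e2
  have hf0 := abs_nonneg (MvPolynomial.eval (Fin.cons z Y : Fin (e + 1) → ℝ) f)
  have hD0 : (0 : ℝ) ≤ D := Nat.cast_nonneg _
  by_cases hH : Hs K0 f (ipt M c) = 0
  · refine ⟨none, ?_⟩
    rw [hH, map_zero, map_zero] at e2
    have h1 : MvPolynomial.eval (Fin.cons z Y : Fin (e + 1) → ℝ) (MvPolynomial.pderiv 0 f) = 0 := by
      rcases mul_eq_zero.mp e2.symm with h | h
      · exact absurd h hK0.ne'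
      · exact h
    rw [h1, abs_zero, mul_zero]
    positivity
  · have hdeg : (Hs K0 f (ipt M c)).totalDegree ≤ D := (rcp_deg _ _ _).trans hf
    have hM' : 16 * cB e D ^ 2 ≤ ((M + 1 : ℕ) : ℝ) := by
      push_cast
      exact hM
    obtain ⟨-, h2⟩ := chGa_spec (lga_one e D hD _ hH hdeg (M + 1) hM' (gix M c) (hg hH))
    rcases h2 t u ht01 hu1 with h | ⟨i, h⟩
    · refine ⟨none, ?_⟩
      rw [e1, e2, abs_mul, abs_of_pos hK0] at h
      have h3 : ‖(z : ℂ) - Ga D K0 M f c none (rc t)‖ = |u| * K0 := by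
        show ‖(z : ℂ) - 0‖ = _
        rw [sub_zero, Complex.norm_real, Real.norm_eq_abs, ← hzu, abs_mul, abs_of_pos hK0, mul_comm]
      rw [h3, mul_assoc]
      linarith
    · refine ⟨some i, ?_⟩
      rw [e1, e2, abs_mul, abs_of_pos hK0] at h
      have h3 : ‖(z : ℂ) - Ga D K0 M f c (some i) (rc t)‖ = K0 * ‖(u : ℂ) -
          chGa D (Hs K0 f (ipt M c)) (M + 1) (gix M c) i (rc t)‖ := by
        show ‖(z : ℂ) - ((K0 : ℝ) : ℂ) * _‖ = _
        rw [← hzu, Complex.ofReal_mul, ← mul_sub, norm_mul, Complex.norm_real, Real.norm_eq_abs, abs_of_pos hK0]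
      rw [h3]
      linarith

variable {S : Sp}

/-- LOCAL GRAPHS, algebraic form -/
theorem lga (Y : S.VV e) (La : ∀ k, Setoid (S.F k).Ω) (β : Fin e → ℝ) {ε : ℝ} (hε : 0 < ε) (hβ : ∀ i, ε ≤ β i)
    (full : Tendsto (fun k => h (fc (Setoid.ker (celm Y β k))) (fc (La k)) / (S.F k).n) UF (𝓝 (∑ i, β i)))
    {D : ℕ} (hD : 1 ≤ D) (z : ∀ k, (S.F k).Ω → ℝ) {K0 : ℕ → ℝ} (hK01 : ∀ᶠ k in UF, 1 ≤ K0 k)
    (hz : ∀ᶠ k in UF, ∀ ω, (S.F k).μ ω ≠ 0 → |z k ω| ≤ K0 k)
    (f : ∀ k, (S.F k).Ω → MvPolynomial (Fin (e + 1)) ℝ)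
    (deg : ∀ᶠ k in UF, ∀ ω, (S.F k).μ ω ≠ 0 → (f k ω).totalDegree ≤ D)
    (hf : ∀ᶠ k in UF, ∀ ω ω', (S.F k).μ ω ≠ 0 → (S.F k).μ ω' ≠ 0 → (S.F k).Z ω ω' → La k ω ω' → f k ω = f k ω') :
    ∃ (idx : ∀ k, (S.F k).Ω → Option (Fin (D * D))),
      Typ (fun k ω => ‖((z k ω : ℝ) : ℂ) - Ga D (K0 k) (mgr S ε k) (f k ω) (gcell Y ε k ω) (idx k ω)
          (rc fun j => ngr S ε k * Y.v k ω j - gcell Y ε k ω j)‖ *
        |MvPolynomial.eval (Fin.cons (z k ω) (Y.v k ω) : Fin (e + 1) → ℝ) (MvPolynomial.pderiv 0 (f k ω))| ≤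
        D * |MvPolynomial.eval (Fin.cons (z k ω) (Y.v k ω) : Fin (e + 1) → ℝ) (f k ω)|) := by
  classical
  set Mk : ℕ → ℕ := fun k => mgr S ε k with hMk
  set P : ∀ k, (S.F k).Ω → Option (Fin (D * D)) → Prop := fun k ω i =>
    ‖((z k ω : ℝ) : ℂ) - Ga D (K0 k) (Mk k) (f k ω) (gcell Y ε k ω) i
        (rc fun j => ((Mk k : ℝ) + 1) * Y.v k ω j - gcell Y ε k ω j)‖ *
      |MvPolynomial.eval (Fin.cons (z k ω) (Y.v k ω) : Fin (e + 1) → ℝ) (MvPolynomial.pderiv 0 (f k ω))| ≤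
      D * |MvPolynomial.eval (Fin.cons (z k ω) (Y.v k ω) : Fin (e + 1) → ℝ) (f k ω)| with hP
  set idx : ∀ k, (S.F k).Ω → Option (Fin (D * D)) := fun k ω => if h : ∃ i, P k ω i then h.choose else none with hidx
  refine ⟨idx, ?_⟩
  -- bad grid cells
  set Bd : ∀ k, (S.F k).Ω → Finset (Fin e → Fin (Mk k + 1)) := fun k ω =>
    if Hs (K0 k) (f k ω) (ipt (Mk k) (gcell Y ε k ω)) = 0 then ∅ else
      excf D (1 / √((Mk k + 1 : ℕ) : ℝ)) (Mk k + 1)
        (MvPolynomial.map (algebraMap ℝ ℂ) (Hs (K0 k) (f k ω) (ipt (Mk k) (gcell Y ε k ω)))) with hBd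
  set C2 : ℝ := D * (((D : ℝ) + 3) * (cexc e (Pool.Agent.Helper76.RL.dd D) * 3)) + 1 with hC2
  have hC21 : 1 ≤ C2 := by
    have : (0 : ℝ) ≤ D * (((D : ℝ) + 3) * (cexc e (Pool.Agent.Helper76.RL.dd D) * 3)) := by positivity
    linarith
  have hav : Typ (fun k ω => gix (Mk k) (gcell Y ε k ω) ∉ Bd k ω) := by
    apply avoid (α := fun k => Fin e → Fin (Mk k + 1)) (fun k ω => gix (Mk k) (gcell Y ε k ω))
      (fun k => La k ⊓ Setoid.ker (fun ω => ipt (mgr S ε k) (gcell Y ε k ω))) Bd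
      (fun k => ngr S ε k ^ e * (C2 / √(ngr S ε k))) (Eventually.of_forall fun k => by
        have := ngr_one S ε k
        have h0 : 0 < ngr S ε k := by linarith
        positivity) _ _ (η := ε / 4) (by linarith) _ (gix_full Y La β hε.le hβ full)
    · filter_upwards [hf] with k hk ω ω' a b c d
      have h1 : f k ω = f k ω' := hk ω ω' a b c d.1
      have h2 : ipt (Mk k) (gcell Y ε k ω) = ipt (Mk k) (gcell Y ε k ω') := d.2
      simp only [hBd, h1, h2]
    · filter_upwards [deg] with k hk ω hω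
      simp only [hBd]
      have hN := ngr_one S ε k
      have hN0 : 0 < ngr S ε k := by linarith
      split_ifs with h1
      · rw [Finset.card_empty, Nat.cast_zero]
        positivity
      · have h2 : MvPolynomial.map (algebraMap ℝ ℂ) (Hs (K0 k) (f k ω) (ipt (Mk k) (gcell Y ε k ω))) ≠ 0 := by
          intro h
          apply h1
          apply MvPolynomial.map_injective (algebraMap ℝ ℂ) (algebraMap ℝ ℂ).injective
          rw [h, map_zero]
        have hN' : ((Mk k + 1 : ℕ) : ℝ) = ngr S ε k := by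
          push_cast
          rfl
        have hs : (0 : ℝ) < 1 / √((Mk k + 1 : ℕ) : ℝ) := by
          rw [hN']
          positivity
        have h3 := card_excf h2 ((totalDegree_map_le' _).trans ((rcp_deg _ _ _).trans (hk ω hω))) hs (Mk k + 1)
          (Nat.succ_pos _)
        refine h3.trans ?_
        rw [hN']
        have h4 : 2 * (1 / √(ngr S ε k)) + 1 / ngr S ε k ≤ 3 * (1 / √(ngr S ε k)) := by
          have h5 : 1 / ngr S ε k ≤ 1 / √(ngr S ε k) := by
            apply one_div_le_one_div_of_le (Real.sqrt_pos.mpr hN0)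
            rw [Real.sqrt_le_left (by linarith)]
            nlinarith
          linarith
        have h6 : (D : ℝ) * (((D : ℝ) + 3) * (ngr S ε k ^ e * (cexc e (Pool.Agent.Helper76.RL.dd D) * (2 * (1 / √(ngr S ε k)) + 1 / ngr S ε k)))) ≤
            (D : ℝ) * (((D : ℝ) + 3) * (ngr S ε k ^ e * (cexc e (Pool.Agent.Helper76.RL.dd D) * (3 * (1 / √(ngr S ε k)))))) := by
          gcongr
        refine h6.trans ?_
        have h7 : (D : ℝ) * (((D : ℝ) + 3) * (ngr S ε k ^ e * (cexc e (Pool.Agent.Helper76.RL.dd D) * (3 * (1 / √(ngr S ε k)))))) =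
            ngr S ε k ^ e * ((D * (((D : ℝ) + 3) * (cexc e (Pool.Agent.Helper76.RL.dd D) * 3))) / √(ngr S ε k)) := by ring
        rw [h7]
        apply mul_le_mul_of_nonneg_left _ (by positivity)
        apply div_le_div_of_nonneg_right _ (Real.sqrt_nonneg _)
        linarith
    · have h1 : Tendsto (fun k => Real.logb 2 C2 / (S.F k).n) UF (𝓝 0) := S.div_n_tendsto _
      filter_upwards [h1.eventually (gt_mem_nhds (show 0 < ε / 4 by linarith))] with k hk
      have hn := (S.F k).pos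
      have hN := ngr_one S ε k
      have hN0 : 0 < ngr S ε k := by linarith
      rw [div_lt_iff₀ hn] at hk
      have h2 : Real.logb 2 (Fintype.card (Fin e → Fin (Mk k + 1))) = e * Real.logb 2 (ngr S ε k) := by
        rw [Fintype.card_fun, Fintype.card_fin, Fintype.card_fin]
        push_cast
        rw [Real.logb_pow]
        rfl
      rw [h2, Real.logb_mul (by positivity) (by positivity), Real.logb_pow, Real.logb_div (by positivity) (by positivity),
        Real.sqrt_eq_rpow, Real.logb_rpow_eq_mul_logb_of_pos hN0]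
      have h3 := logb_ngr_ge S ε k
      linarith
  -- the scale
  have hM : ∀ᶠ k in UF, 16 * cB e D ^ 2 ≤ ngr S ε k := by
    have h1 : S.Sub (fun _ => 16 * cB e D ^ 2) := S.Sub_const (by positivity)
    filter_upwards [h1.eventually_le hε] with k hk
    have h2 := ngr_gt S ε k
    rw [dl_inv] at h2
    linarith
  refine hav.mono ?_
  filter_upwards [hK01, hz, deg, hM] with k g1 g2 g3 g4 ω hω hg
  have hk0 : 0 < K0 k := by linarith
  have hex : ∃ i, P k ω i := by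
    apply lga_pt hD hk0 (f k ω) (g3 ω hω) (Mk k) g4 (Y.v k ω) (z k ω) (g2 ω hω) (gcell Y ε k ω) (fun i => rfl)
    intro h1 h2
    apply hg
    simp only [hBd]
    rw [if_neg h1]
    exact h2
  have hPi : P k ω (idx k ω) := by
    have h1 : idx k ω = hex.choose := by
      simp only [hidx]
      rw [dif_pos hex]
    rw [h1]
    exact hex.choose_spec
  exact hPi

end

end Pool.Agent.Helper76.DIM
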