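import Pool.Agent.Helper76.DIM.Frm
import Pool.Agent.Helper76.DIM.Lga

/-! LEAVES FROM FULL COORDINATES (VTYPE), preparations: the chart of one cut coordinate over full coordinates. -/

set_option autoImplicit false

namespace Pool.Agent.Helper76.DIM

open Finset Filter Topology Matrix Metric Pool.Agent.Helper69.RK Pool.Agent.Helper31.EC Pool.Agent.Helper31.EC.Sp
open Pool.Agent.Helper40.EL Pool.Agent.Helper89.LX Pool.Agent.Helper3.LF Pool.Agent.Helper84.MT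
open Pool.Agent.Helper63.FRT
open Pool.Agent.Helper95.LF (PdM)
open Pool.Agent.Helper76.RL (fam fam_deg cB AlgR algR_const rc ev)

noncomputable section

variable {S : Sp} {e D : ℕ}

/-- an affine chart -/
lemma algR_lin {L : ℕ} (hL : 1 ≤ L) (r : ℝ) (c N : ℂ) (i : Fin e) :
    AlgR (m := e) L r (fun y => (c + y i) / N) := by
  refine ⟨Polynomial.X - Polynomial.C (MvPolynomial.C (c / N) + MvPolynomial.C (1 / N) * MvPolynomial.X i), ?_, fun j => ?_,
    fun y _ => ⟨?_, ?_⟩⟩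
  · refine (Polynomial.natDegree_X_sub_C_le _).trans hL
  · rw [Polynomial.coeff_sub]
    refine (MvPolynomial.totalDegree_sub _ _).trans (max_le ?_ ?_)
    · rw [Polynomial.coeff_X]
      split_ifs
      · rw [MvPolynomial.totalDegree_one]
        omega
      · rw [MvPolynomial.totalDegree_zero]
        omega
    · rw [Polynomial.coeff_C]
      split_ifs
      · refine (MvPolynomial.totalDegree_add _ _).trans (max_le ?_ ?_)
        · rw [MvPolynomial.totalDegree_C]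
          omega
        · refine (MvPolynomial.totalDegree_mul _ _).trans ?_
          rw [MvPolynomial.totalDegree_C, MvPolynomial.totalDegree_X, zero_add]
          exact hL
      · rw [MvPolynomial.totalDegree_zero]
        omega
  · unfold ev
    simp
    ring
  · unfold ev
    simp

/-- THE CHART OF ONE CUT COORDINATE -/
theorem cut_one (hD : 1 ≤ D) (P : S.VV (e + 1)) (La : ∀ k, Setoid (S.F k).Ω)
    (full : Tendsto (fun k => h (fc (Setoid.ker ((tlv P).cellv 1 k))) (fc (La k)) / (S.F k).n) UF (𝓝 e))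
    (g : ∀ k, (S.F k).Ω → Matrix (Mon (e + 1) D) (Mon (e + 1) D) ℝ)
    (pd : ∀ᶠ k in UF, ∀ ω, (S.F k).μ ω ≠ 0 → PdM (g k ω))
    (ms : ∀ᶠ k in UF, ∀ ω ω', (S.F k).μ ω ≠ 0 → (S.F k).μ ω' ≠ 0 → (S.F k).Z ω ω' → La k ω ω' → g k ω = g k ω')
    (sm : ∀ η : ℝ, 0 < η → Typ (fun k ω => phi (S.dl 1 k) (g k ω) (P.v k ω) ≤ 2 ^ (η * (S.F k).n)))
    {b : ℝ} (hb : 0 < b) (hbig : ∀ η : ℝ, 0 < η → Typ (fun k ω => 2 ^ (2 * (b - η) * (S.F k).n) ≤
      1 + Jq (S.dl 1 k) (g k ω) (P.v k ω) 0 0))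
    {ε : ℝ} (hε : 0 < ε) (hε1 : ε ≤ 1) {K0 : ℕ → ℝ} (hK01 : ∀ᶠ k in UF, 1 ≤ K0 k)
    (hz : ∀ᶠ k in UF, ∀ ω, (S.F k).μ ω ≠ 0 → |P.v k ω 0| ≤ K0 k) (δ : ℝ) (hδ : 0 < δ) :
    ∃ (ρ : ∀ k, (S.F k).Ω → Mon (e + 1) D × (Fin (e + 1) → Fin (D + 1)))
      (idx : ∀ k, (S.F k).Ω → Option (Fin (D * D))),
      Typ (fun k ω => ‖((P.v k ω 0 : ℝ) : ℂ) - Ga D (K0 k) (mgr S ε k)
          (fam (fac (g k ω)) (S.dl 1 k) (Sum.inl (ρ k ω))) (gcell (tlv P) ε k ω) (idx k ω)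
          (rc fun j => ngr S ε k * (tlv P).v k ω j - gcell (tlv P) ε k ω j)‖ ≤
        D * (2 ^ (2 * δ * (S.F k).n) * 2 ^ (-(b * (S.F k).n)))) := by
  classical
  have hne : Nonempty (Mon (e + 1) D × (Fin (e + 1) → Fin (D + 1))) := ⟨(Mon.zero _ _, fun _ => 0)⟩
  set α := Mon (e + 1) D × (Fin (e + 1) → Fin (D + 1)) with hα
  set c : ℝ := ((Fintype.card α : ℕ) : ℝ) with hc
  have hc0 : 0 < c := by
    rw [hc]
    exact_mod_cast Fintype.card_pos
  set ρ : ∀ k, (S.F k).Ω → α := fun k ω => if h : PdM (g k ω) then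
    (exists_row h (S.dl 1 k) (P.v k ω) 0).choose else Classical.arbitrary _ with hρ
  have hρs : ∀ k ω, PdM (g k ω) → Jq (S.dl 1 k) (g k ω) (P.v k ω) 0 0 ≤ c *
      (MvPolynomial.eval (P.v k ω) (MvPolynomial.pderiv 0 (fam (fac (g k ω)) (S.dl 1 k) (Sum.inl (ρ k ω))))) ^ 2 := by
    intro k ω h
    have h1 : ρ k ω = (exists_row h (S.dl 1 k) (P.v k ω) 0).choose := dif_pos h
    rw [h1]
    exact (exists_row h (S.dl 1 k) (P.v k ω) 0).choose_spec
  have hfull := full_add (tlv P) La ρ full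
  have hfull' : Tendsto (fun k => h (fc (Setoid.ker (celm (tlv P) (fun _ => 1) k))) (fc (La k ⊓ Setoid.ker (ρ k))) /
      (S.F k).n) UF (𝓝 (∑ _i : Fin e, (1 : ℝ))) := by
    have e1 : ∑ _i : Fin e, (1 : ℝ) = e := by simp
    rw [e1]
    refine hfull.congr fun k => ?_
    rw [celm_const]
  obtain ⟨idx, hidx⟩ := lga (tlv P) (fun k => La k ⊓ Setoid.ker (ρ k)) (fun _ => 1) hε (fun _ => hε1) hfull' hD
    (fun k ω => P.v k ω 0) hK01 hz (fun k ω => fam (fac (g k ω)) (S.dl 1 k) (Sum.inl (ρ k ω)))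
    (Eventually.of_forall fun k ω _ => fam_deg hD _ _ _) (by
      filter_upwards [ms] with k hk ω ω' a b c d
      rw [hk ω ω' a b c d.1, show ρ k ω = ρ k ω' from d.2])
  refine ⟨ρ, idx, ?_⟩
  set δ' : ℝ := min δ b with hδ'
  have hδ'0 : 0 < δ' := lt_min hδ hb
  have hl1 := S.div_n_tendsto (2 / b)
  have hl2 := S.div_n_tendsto (Real.logb 2 (2 * c))
  refine ((hidx.and (sm δ' hδ'0)).and (hbig (δ' / 2) (by linarith))).mono ?_
  filter_upwards [pd, hl1.eventually (gt_mem_nhds (show (0 : ℝ) < 1 by norm_num)),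
    hl2.eventually (gt_mem_nhds hδ'0)] with k hk g1 g2 ω hω h0
  obtain ⟨⟨h1, h2⟩, h3⟩ := h0
  have hn := (S.F k).pos
  rw [div_lt_iff₀ hn, one_mul, div_lt_iff₀ hb] at g1
  rw [div_lt_iff₀ hn] at g2
  have hδb : δ' ≤ b := min_le_right _ _
  have hδδ : δ' ≤ δ := min_le_left _ _
  have h4 := num_row (η := δ') (θ := b) h3 (hρs k ω (hk ω hω)) hc0 (by nlinarith) (by linarith)
  have e0 : (Fin.cons (P.v k ω 0) ((tlv P).v k ω) : Fin (e + 1) → ℝ) = P.v k ω := Fin.cons_self_tail _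
  rw [e0] at h1
  set F := fam (fac (g k ω)) (S.dl 1 k) (Sum.inl (ρ k ω)) with hF
  set X := ‖((P.v k ω 0 : ℝ) : ℂ) - Ga D (K0 k) (mgr S ε k) F (gcell (tlv P) ε k ω) (idx k ω)
          (rc fun j => ngr S ε k * (tlv P).v k ω j - gcell (tlv P) ε k ω j)‖ with hX
  have h5 := row_sq_le (hk ω hω) (S.dl 1 k) (P.v k ω) (ρ k ω)
  have h6 : (1 : ℝ) ≤ 2 ^ (δ' * (S.F k).n) := Real.one_le_rpow (by norm_num) (by positivity)
  have h7 : |MvPolynomial.eval (P.v k ω) F| ≤ 2 ^ (δ' * (S.F k).n) := by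
    apply abs_le_of_sq_le_sq _ (by linarith)
    exact (h5.trans h2).trans (by nlinarith)
  set df := |MvPolynomial.eval (P.v k ω) (MvPolynomial.pderiv 0 F)| with hdf
  have h8 : 0 < df := lt_of_lt_of_le (by positivity) h4
  have h9 : X * df ≤ D * (2 ^ (2 * δ * (S.F k).n) * 2 ^ (-(b * (S.F k).n))) * df := by
    refine h1.trans ?_
    rw [mul_assoc]
    apply mul_le_mul_of_nonneg_left _ (Nat.cast_nonneg D)
    refine h7.trans ?_
    have h10 : (2 : ℝ) ^ (δ' * (S.F k).n) ≤ 2 ^ (2 * δ * (S.F k).n) * 2 ^ (-(b * (S.F k).n)) *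
        2 ^ ((b - δ') * (S.F k).n) := by
      rw [← Real.rpow_add (by norm_num), ← Real.rpow_add (by norm_num)]
      apply Real.rpow_le_rpow_of_exponent_le (by norm_num)
      nlinarith
    exact h10.trans (mul_le_mul_of_nonneg_left h4 (by positivity))
  exact le_of_mul_le_mul_right h9 h8

end

end Pool.Agent.Helper76.DIM
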