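import Pool.Agent.Helper76.DIM.Vta
import Pool.Agent.Helper76.DIM.Dim
import Pool.Agent.Helper63.MT.Imu

/-! LEAVES FROM FULL COORDINATES (VTYPE), preparations: entropies and numbers of values of the codes. -/

set_option autoImplicit false

namespace Pool.Agent.Helper76.DIM

open Finset Filter Topology Matrix Metric Pool.Agent.Helper69.RK Pool.Agent.Helper31.EC Pool.Agent.Helper31.EC.Sp
open Pool.Agent.Helper40.EL Pool.Agent.Helper89.LX Pool.Agent.Helper3.LF Pool.Agent.Helper84.MT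
open Pool.Agent.Helper63.FRT
open Pool.Agent.Helper95.LF (PdM)

noncomputable section

variable {S : Sp} {e M v D : ℕ}

lemma sub_log {K : ℕ → ℝ} (hK : S.Sub K) {κ : ℝ} (hκ : 0 < κ) :
    ∀ᶠ k in UF, Real.logb 2 (K k + 2) ≤ κ * (S.F k).n := by
  filter_upwards [hK.2.eventually (gt_mem_nhds hκ)] with k hk
  have hn := (S.F k).pos
  rw [div_lt_iff₀ hn] at hk
  exact hk.le

lemma gcell_bd (Y : S.VV e) (ε : ℝ) (k : ℕ) {K : ℝ} (ω : (S.F k).Ω) (i : Fin e) (h : |Y.v k ω i| ≤ K) :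
    |(gcell Y ε k ω i : ℝ)| ≤ ngr S ε k * (K + 1) := by
  have hN := ngr_one S ε k
  have h1 := Int.floor_le (ngr S ε k * Y.v k ω i)
  have h2 := Int.lt_floor_add_one (ngr S ε k * Y.v k ω i)
  have h3 : |ngr S ε k * Y.v k ω i| ≤ ngr S ε k * K := by
    rw [abs_mul, abs_of_pos (by linarith)]
    exact mul_le_mul_of_nonneg_left h (by linarith)
  unfold gcell
  rw [abs_le] at h3 ⊢
  constructor <;> nlinarith

/-- the entropy of the grid cells -/
lemma ent_gcell (Y : S.VV e) {ε : ℝ} (hε : 0 ≤ ε) {κ : ℝ} (hκ : 0 < κ) :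
    ∀ᶠ k in UF, ∀ B : Setoid (S.F k).Ω, (S.F k).e (Setoid.ker (gcell Y ε k)) B ≤ (e * ε + κ) * (S.F k).n := by
  obtain ⟨K, hK, hY⟩ := Y.bd
  have hκ' : 0 < κ / (2 * (e + 1)) := by positivity
  have hK2 : S.Sub (fun k => 2 * K k + 1) := ((S.Sub_const zero_le_two).mul hK).add (S.Sub_const zero_le_one)
  have h1 := S.div_n_tendsto 1
  filter_upwards [hY, hK.1, sub_log hK2 hκ', h1.eventually (gt_mem_nhds hκ')] with k a b c d B
  have hn := (S.F k).pos
  rw [div_lt_iff₀ hn] at d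
  have hN := ngr_one S ε k
  have hN0 : 0 < ngr S ε k := by linarith
  have h2 := (S.F k).e_int_le (gcell Y ε k) B (2 * (ngr S ε k * (K k + 1))) (by positivity) (fun ω ω' h1 h2 _ i => by
    have h3 := gcell_bd Y ε k ω i (a ω h1 i)
    have h4 := gcell_bd Y ε k ω' i (a ω' h2 i)
    have h5 := abs_sub (gcell Y ε k ω i : ℝ) (gcell Y ε k ω' i)
    linarith)
  refine h2.trans ?_
  have h3 : Real.logb 2 (2 * (ngr S ε k * (K k + 1)) + 1) ≤ (ε + κ / (e + 1)) * (S.F k).n := by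
    have h4 : 2 * (ngr S ε k * (K k + 1)) + 1 ≤ ngr S ε k * (2 * K k + 1 + 2) := by nlinarith
    have h5 := Real.logb_le_logb_of_le (b := 2) (by norm_num) (by positivity) h4
    rw [Real.logb_mul (by positivity) (by positivity)] at h5
    have h6 := logb_ngr_le S hε k
    have h7 : κ / (e + 1) = κ / (2 * (e + 1)) + κ / (2 * (e + 1)) := by
      field_simp
      ring
    rw [h7]
    linarith
  have h4 := mul_le_mul_of_nonneg_left h3 (Nat.cast_nonneg e : (0 : ℝ) ≤ e)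
  refine h4.trans ?_
  have h5 : (e : ℝ) * ((ε + κ / (e + 1)) * (S.F k).n) = (e * ε + κ * (e / (e + 1))) * (S.F k).n := by
    field_simp
  rw [h5]
  apply mul_le_mul_of_nonneg_right _ hn.le
  have h6 : (e : ℝ) / (e + 1) ≤ 1 := by
    rw [div_le_one (by positivity)]
    linarith
  have h7 := mul_le_mul_of_nonneg_left h6 hκ.le
  linarith

lemma cellv_bd (Q : S.VV M) {b : ℝ} (k : ℕ) {K : ℝ} (ω : (S.F k).Ω) (i : Fin M)
    (h : |Q.v k ω i| ≤ K) : |(Q.cellv b k ω i : ℝ)| ≤ 2 ^ (b * (S.F k).n) * K + 1 := by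
  have hd := S.dl_pos b k
  have e1 : Q.v k ω i / S.dl b k = 2 ^ (b * (S.F k).n) * Q.v k ω i := by
    rw [div_eq_mul_inv, dl_inv, mul_comm]
  have h1 := Int.floor_le (Q.v k ω i / S.dl b k)
  have h2 := Int.lt_floor_add_one (Q.v k ω i / S.dl b k)
  have h3 : |Q.v k ω i / S.dl b k| ≤ 2 ^ (b * (S.F k).n) * K := by
    rw [e1, abs_mul, abs_of_pos (by positivity)]
    exact mul_le_mul_of_nonneg_left h (by positivity)
  show |(⌊Q.v k ω i / S.dl b k⌋ : ℝ)| ≤ _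
  rw [abs_le] at h3 ⊢
  constructor <;> linarith

open Classical in
/-- the cells of the point outside the event -/
def bad (Q : S.VV M) (b : ℝ) (A : ∀ k, (S.F k).Ω → Prop) : ∀ k, (S.F k).Ω → Fin M → ℤ :=
  fun k ω => if A k ω then fun _ => 0 else Q.cellv b k ω

lemma bad_bd (Q : S.VV M) {b : ℝ} (A : ∀ k, (S.F k).Ω → Prop) (k : ℕ) {K : ℝ} (hK : 0 ≤ K) (ω : (S.F k).Ω) (i : Fin M)
    (h : |Q.v k ω i| ≤ K) : |(bad Q b A k ω i : ℝ)| ≤ 2 ^ (b * (S.F k).n) * K + 1 := by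
  unfold bad
  split_ifs
  · rw [Int.cast_zero, abs_zero]
    positivity
  · exact cellv_bd Q k ω i h

lemma bad_log {K b n : ℝ} (hK : 0 ≤ K) (hb : 0 ≤ b * n) :
    Real.logb 2 (2 * (2 ^ (b * n) * K + 1) + 1) ≤ b * n + Real.logb 2 (2 * K + 1 + 2) := by
  have h0 : (1 : ℝ) ≤ 2 ^ (b * n) := Real.one_le_rpow (by norm_num) hb
  have h1 : 2 * (2 ^ (b * n) * K + 1) + 1 ≤ 2 ^ (b * n) * (2 * K + 1 + 2) := by nlinarith
  have h2 := Real.logb_le_logb_of_le (b := 2) (by norm_num) (by positivity) h1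
  rwa [Real.logb_mul (by positivity) (by positivity), Real.logb_rpow (by norm_num) (by norm_num)] at h2

/-- the cells of the point outside a typical event have no entropy -/
lemma ent_bad (Q : S.VV M) {b : ℝ} (hb : 0 ≤ b) {A : ∀ k, (S.F k).Ω → Prop} (hA : Typ A) {κ : ℝ} (hκ : 0 < κ) :
    ∀ᶠ k in UF, ∀ B : Setoid (S.F k).Ω, (S.F k).e (Setoid.ker (bad Q b A k)) B ≤ κ * (S.F k).n := by
  obtain ⟨K, hK, hY⟩ := Q.bd
  have hκ' : 0 < κ / 2 := by positivity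
  have hK2 : S.Sub (fun k => 2 * K k + 1) := ((S.Sub_const zero_le_two).mul hK).add (S.Sub_const zero_le_one)
  have h1 := S.div_n_tendsto 1
  have h2 : ∀ᶠ k in UF, mass (res (S.F k).μ (fun ω => ¬ A k ω)) < κ / (2 * (M * (b + 1) + 1)) :=
    hA.eventually (gt_mem_nhds (by positivity))
  filter_upwards [hY, hK.1, sub_log hK2 one_pos, h1.eventually (gt_mem_nhds hκ'), h2] with k a b' c d f B
  have hn := (S.F k).pos
  rw [div_lt_iff₀ hn] at d
  set L : ℝ := 2 * (2 ^ (b * (S.F k).n) * K k + 1) with hL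
  have hL0 : 0 ≤ L := by positivity
  have h3 := (S.F k).e_int_le_event (bad Q b A k) B (fun ω => ¬ A k ω) 0 L le_rfl hL0
    (fun ω ω' _ _ e1 e2 _ i => by
      have e1 := not_not.mp e1
      have e2 := not_not.mp e2
      unfold bad
      rw [if_pos e1, if_pos e2]
      simp)
    (fun ω ω' e1 e2 _ _ _ i => by
      have h3 := bad_bd Q (b := b) A k b' ω i (a ω e1 i)
      have h4 := bad_bd Q (b := b) A k b' ω' i (a ω' e2 i)
      have h5 := abs_sub (bad Q b A k ω i : ℝ) (bad Q b A k ω' i)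
      linarith)
  refine h3.trans ?_
  rw [zero_add, Real.logb_one, mul_zero, zero_add]
  have h4 : Real.logb 2 (L + 1) ≤ (b + 1) * (S.F k).n := by
    have := bad_log (K := K k) (b := b) (n := (S.F k).n) b' (by positivity)
    linarith
  have hm0 : 0 ≤ mass (res (S.F k).μ (fun ω => ¬ A k ω)) := by
    classical
    unfold mass
    apply Finset.sum_nonneg
    intro ω _
    unfold res
    split_ifs
    · exact (S.F k).nn ω
    · exact le_rfl
  have h5 : (M : ℝ) * Real.logb 2 (L + 1) * mass (res (S.F k).μ (fun ω => ¬ A k ω)) ≤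
      (M * ((b + 1) * (S.F k).n)) * (κ / (2 * (M * (b + 1) + 1))) := by
    apply mul_le_mul (mul_le_mul_of_nonneg_left h4 (Nat.cast_nonneg M)) f.le hm0
    positivity
  have h6 : ((M : ℝ) * ((b + 1) * (S.F k).n)) * (κ / (2 * (M * (b + 1) + 1))) =
      (κ / 2 * (S.F k).n) * ((M * (b + 1)) / (M * (b + 1) + 1)) := by
    field_simp
  have h7 : ((M : ℝ) * (b + 1)) / (M * (b + 1) + 1) ≤ 1 := by
    rw [div_le_one (by positivity)]
    linarith
  have h8 := mul_le_mul_of_nonneg_left h7 (show 0 ≤ κ / 2 * (S.F k).n by positivity)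
  linarith

/-- a finite code -/
lemma ent_fin {α : Type} [Fintype α] (X : ∀ k, (S.F k).Ω → α) (V : ∀ k, Setoid (S.F k).Ω) {κ : ℝ} (hκ : 0 < κ) :
    ∀ᶠ k in UF, (S.F k).e (Setoid.ker (X k)) (V k ⊓ (S.F k).Z) ≤ κ * (S.F k).n := by
  have h1 : Tendsto (fun k => h (fc (Setoid.ker (X k))) (fc (V k)) / (S.F k).n) UF (𝓝 0) :=
    fin_PLe X (fun k => fc (V k))
  filter_upwards [h1.eventually (gt_mem_nhds hκ)] with k hk
  have hn := (S.F k).pos
  rw [div_lt_iff₀ hn, h_fc] at hk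
  exact hk.le

lemma nv_int {F : FSp} {m : ℕ} (X : F.Ω → Fin m → ℤ) {L C : ℝ} (h : ∀ ω, F.μ ω ≠ 0 → ∀ i, |(X ω i : ℝ)| ≤ L)
    (hL : 2 * L + 1 ≤ 2 ^ C) (hL0 : 0 ≤ L) (ω : F.Ω) : (nv F (Setoid.ker X) ω : ℝ) ≤ 2 ^ (m * C) := by
  rw [nv_ker]
  have h1 := nvf_box F.μ X (Quotient.mk F.Z) ω (2 * L) (by positivity) (fun ω₁ ω₂ h₁ h₂ i => by
    have e1 := abs_le.mp (h ω₁ h₁ i)
    have e2 := abs_le.mp (h ω₂ h₂ i)
    rw [abs_le]
    constructor <;> linarith [e1.1, e1.2, e2.1, e2.2])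
  refine h1.trans ?_
  have h4 : (2 : ℝ) ^ (m * C) = (2 ^ C) ^ m := by
    rw [← Real.rpow_natCast, ← Real.rpow_mul (by norm_num)]
    congr 1; ring
  rw [h4]
  exact pow_le_pow_left₀ (by positivity) hL m

lemma nv_fin {F : FSp} {α : Type} [Fintype α] (X : F.Ω → α) (ω : F.Ω) :
    (nv F (Setoid.ker X) ω : ℝ) ≤ Fintype.card α := by
  classical
  rw [nv_ker]
  unfold nvf
  norm_cast
  exact Finset.card_le_univ _

lemma nv_gcell (Y : S.VV e) {ε : ℝ} (hε1 : ε ≤ 1) :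
    ∀ᶠ k in UF, ∀ ω, (nv (S.F k) (Setoid.ker (gcell Y ε k)) ω : ℝ) ≤ 2 ^ (e * (2 * (S.F k).n)) := by
  obtain ⟨K, hK, hY⟩ := Y.bd
  have hK2 : S.Sub (fun k => 4 * K k + 6) :=
    ((S.Sub_const (show (0 : ℝ) ≤ 4 by norm_num)).mul hK).add (S.Sub_const (by norm_num))
  filter_upwards [hY, hK.1, hK2.eventually_le one_pos] with k a b c ω
  have hn := (S.F k).pos
  have hN := ngr_one S ε k
  apply nv_int (gcell Y ε k) (L := ngr S ε k * (K k + 1)) (fun ω hω i => gcell_bd Y ε k ω i (a ω hω i)) _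
    (by positivity)
  have h1 := ngr_le S ε k
  rw [dl_inv] at h1
  have h2 : (2 : ℝ) ^ (ε * (S.F k).n) ≤ 2 ^ ((S.F k).n) := by
    apply Real.rpow_le_rpow_of_exponent_le (by norm_num)
    nlinarith
  have h3 : (1 : ℝ) ≤ 2 ^ ((S.F k).n) := Real.one_le_rpow (by norm_num) hn.le
  have h4 : (2 : ℝ) ^ (2 * (S.F k).n) = 2 ^ ((S.F k).n) * 2 ^ ((S.F k).n) := by
    rw [← Real.rpow_add (by norm_num)]
    congr 1; ring
  rw [one_mul] at c
  rw [h4]
  have h5 : 2 * (ngr S ε k * (K k + 1)) + 1 ≤ ngr S ε k * (2 * K k + 3) := by nlinarith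
  have h6 : ngr S ε k * (2 * K k + 3) ≤ (2 * 2 ^ ((S.F k).n)) * (2 * K k + 3) := by
    apply mul_le_mul_of_nonneg_right _ (by positivity)
    linarith
  have h7 : (2 * (2 : ℝ) ^ ((S.F k).n)) * (2 * K k + 3) ≤ 2 ^ ((S.F k).n) * 2 ^ ((S.F k).n) := by
    nlinarith
  linarith

lemma nv_bad (Q : S.VV M) {b : ℝ} (hb1 : b ≤ 1) (A : ∀ k, (S.F k).Ω → Prop) :
    ∀ᶠ k in UF, ∀ ω, (nv (S.F k) (Setoid.ker (bad Q b A k)) ω : ℝ) ≤ 2 ^ (M * (2 * (S.F k).n)) := by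
  obtain ⟨K, hK, hY⟩ := Q.bd
  have hK2 : S.Sub (fun k => 2 * K k + 3) :=
    ((S.Sub_const (show (0 : ℝ) ≤ 2 by norm_num)).mul hK).add (S.Sub_const (by norm_num))
  filter_upwards [hY, hK.1, hK2.eventually_le one_pos] with k a b' c ω
  have hn := (S.F k).pos
  apply nv_int (bad Q b A k) (L := 2 ^ (b * (S.F k).n) * K k + 1) (fun ω hω i => bad_bd Q A k b' ω i (a ω hω i)) _
    (by positivity)
  have h2 : (2 : ℝ) ^ (b * (S.F k).n) ≤ 2 ^ ((S.F k).n) := by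
    apply Real.rpow_le_rpow_of_exponent_le (by norm_num)
    nlinarith
  have h3 : (1 : ℝ) ≤ 2 ^ ((S.F k).n) := Real.one_le_rpow (by norm_num) hn.le
  have h4 : (2 : ℝ) ^ (2 * (S.F k).n) = 2 ^ ((S.F k).n) * 2 ^ ((S.F k).n) := by
    rw [← Real.rpow_add (by norm_num)]
    congr 1; ring
  rw [one_mul] at c
  rw [h4]
  have h5 : 2 ^ (b * (S.F k).n) * K k ≤ 2 ^ ((S.F k).n) * K k := mul_le_mul_of_nonneg_right h2 b'
  nlinarith

end

end Pool.Agent.Helper76.DIM
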