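import Pool.Agent.Helper76.DIM.Vtc

/-! LEAVES FROM FULL COORDINATES (VTYPE): data of small defects exist. -/

set_option autoImplicit false

namespace Pool.Agent.Helper76.DIM

open Finset Filter Topology Matrix Metric Pool.Agent.Helper69.RK Pool.Agent.Helper31.EC Pool.Agent.Helper31.EC.Sp
open Pool.Agent.Helper40.EL Pool.Agent.Helper89.LX Pool.Agent.Helper3.LF Pool.Agent.Helper84.MT
open Pool.Agent.Helper63.FRT
open Pool.Agent.Helper95.LF (PdM)
open Pool.Agent.Helper76.RL (fam fam_deg cB cB_one AlgR algR_const algR_mono rc ev)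

noncomputable section

variable {S : Sp} {M v D : ℕ}

/-- the codes and the typical event -/
lemma exists_codes {V : ∀ k, Setoid (S.F k).Ω} {Q : S.VV M} {σ : Fin v → Fin M} {b : ℝ} (hb : 0 < b)
    (hD : 1 ≤ D) {g : Fin M → ∀ k, (S.F k).Ω → Matrix (Mon (v + 1) D) (Mon (v + 1) D) ℝ} (x : CutF V Q σ b D g)
    {ε : ℝ} (hε0 : 0 < ε) (hε1 : ε ≤ 1) {δ : ℝ} (hδ0 : 0 < δ) {K0 : ℕ → ℝ} (hK01 : ∀ᶠ k in UF, 1 ≤ K0 k)
    (hQ : ∀ᶠ k in UF, ∀ ω, (S.F k).μ ω ≠ 0 → ∀ i, |Q.v k ω i| ≤ K0 k) :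
    ∃ (code : ∀ k, (S.F k).Ω → Prop × (Fin M → (Mon (v + 1) D × (Fin (v + 1) → Fin (D + 1))) × Option (Fin (D * D))))
      (A : ∀ k, (S.F k).Ω → Prop) (H : ∀ k, (S.F k).Ω → Fin M → (Fin v → ℂ) → ℂ), Typ A ∧
      (∀ k ω, A k ω → ∀ p, (∀ i, σ i ≠ p) → ‖((Q.v k ω p : ℝ) : ℂ) - H k ω p
        (rc fun j => ngr S ε k * (pck Q σ).v k ω j - gcell (pck Q σ) ε k ω j)‖ ≤
          D * (2 ^ (2 * δ * (S.F k).n) * 2 ^ (-(b * (S.F k).n)))) ∧
      (∀ᶠ k in UF, ∀ ω ω', (S.F k).μ ω ≠ 0 → (S.F k).μ ω' ≠ 0 → (S.F k).Z ω ω' → V k ω ω' →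
        gcell (pck Q σ) ε k ω = gcell (pck Q σ) ε k ω' → code k ω = code k ω' →
        A k ω = A k ω' ∧ ∀ p, (∀ i, σ i ≠ p) → H k ω p = H k ω' p) ∧
      ∀ᶠ k in UF, ∀ ω p, DifferentiableOn ℂ (H k ω p) (ball 0 5) ∧
        (∀ y ∈ ball (0 : Fin v → ℂ) 5, ‖H k ω p y‖ ≤ 3 * K0 k) ∧ AlgR D 5 (H k ω p) := by
  classical
  have hne : Nonempty (Mon (v + 1) D × (Fin (v + 1) → Fin (D + 1))) := ⟨(Mon.zero _ _, fun _ => 0)⟩
  set Y : S.VV v := pck Q σ with hY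
  have hcut : ∀ p : Fin M, ∃ (ρ : ∀ k, (S.F k).Ω → Mon (v + 1) D × (Fin (v + 1) → Fin (D + 1)))
      (idx : ∀ k, (S.F k).Ω → Option (Fin (D * D))), (∀ i, σ i ≠ p) →
      Typ (fun k ω => ‖((Q.v k ω p : ℝ) : ℂ) - Ga D (K0 k) (mgr S ε k)
          (fam (fac (g p k ω)) (S.dl 1 k) (Sum.inl (ρ k ω))) (gcell Y ε k ω) (idx k ω)
          (rc fun j => ngr S ε k * Y.v k ω j - gcell Y ε k ω j)‖ ≤
        D * (2 ^ (2 * δ * (S.F k).n) * 2 ^ (-(b * (S.F k).n)))) := by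
    intro p
    by_cases hp : ∀ i, σ i ≠ p
    · obtain ⟨ρ, idx, h⟩ := cut_one hD (pck Q (Fin.cons p σ : Fin (v + 1) → Fin M)) V x.full (g p) (x.pd p hp)
        (x.ms p hp) (x.sm p hp) hb (x.big p hp) hε0 hε1 hK01 (by
          filter_upwards [hQ] with k hk ω hω
          exact hk ω hω p) δ hδ0
      exact ⟨ρ, idx, fun _ => h⟩
    · exact ⟨fun _ _ => Classical.arbitrary _, fun _ _ => none, fun h => absurd h hp⟩
  choose ρ idx hT using hcut
  set H : ∀ k, (S.F k).Ω → Fin M → (Fin v → ℂ) → ℂ := fun k ω p => Ga D (K0 k) (mgr S ε k)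
          (fam (fac (g p k ω)) (S.dl 1 k) (Sum.inl (ρ p k ω))) (gcell Y ε k ω) (idx p k ω) with hH
  set A : ∀ k, (S.F k).Ω → Prop := fun k ω => ∀ p, (∀ i, σ i ≠ p) → ‖((Q.v k ω p : ℝ) : ℂ) - H k ω p
    (rc fun j => ngr S ε k * Y.v k ω j - gcell Y ε k ω j)‖ ≤
        D * (2 ^ (2 * δ * (S.F k).n) * 2 ^ (-(b * (S.F k).n))) with hA
  refine ⟨fun k ω => (A k ω, fun p => (ρ p k ω, idx p k ω)), A, H, ?_, fun k ω h => h, ?_, ?_⟩
  · apply Pool.Agent.Helper63.MT.typ_all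
    intro p
    by_cases hp : ∀ i, σ i ≠ p
    · exact (hT p hp).mono (Eventually.of_forall fun k ω _ h _ => h)
    · exact Typ_true.mono (Eventually.of_forall fun k ω _ _ h => absurd h hp)
  · have hms : ∀ᶠ k in UF, ∀ p, (∀ i, σ i ≠ p) → ∀ ω ω', (S.F k).μ ω ≠ 0 → (S.F k).μ ω' ≠ 0 → (S.F k).Z ω ω' →
        V k ω ω' → g p k ω = g p k ω' := by
      rw [eventually_all]
      intro p
      by_cases hp : ∀ i, σ i ≠ p
      · filter_upwards [x.ms p hp] with k hk _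
        exact hk
      · exact Eventually.of_forall fun k h => absurd h hp
    filter_upwards [hms] with k hk ω ω' h1 h2 h3 h4 e1 e2
    refine ⟨congrArg Prod.fst e2, fun p hp => ?_⟩
    have e3 := congrFun (congrArg Prod.snd e2) p
    have e4 : ρ p k ω = ρ p k ω' := congrArg Prod.fst e3
    have e5 : idx p k ω = idx p k ω' := congrArg Prod.snd e3
    simp only [hH]
    rw [hk p hp ω ω' h1 h2 h3 h4, e4, e5, e1]
  · have hcB := cB_one v D
    have hS3 : S.Sub (fun _ => 25 * cB v D ^ 2) := S.Sub_const (by positivity)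
    filter_upwards [hK01, hS3.eventually_le hε0] with k a3 a6 ω p
    have hNgt := ngr_gt S ε k
    rw [dl_inv] at hNgt
    have hmgr : ((mgr S ε k + 1 : ℕ) : ℝ) = ngr S ε k := by
      push_cast
      rfl
    have hrad : (5 : ℝ) ≤ √(((mgr S ε k + 1 : ℕ)) : ℝ) / cB v D := by
      rw [hmgr, le_div_iff₀ (by linarith)]
      apply Real.le_sqrt_of_sq_le
      have e1 : (5 * cB v D) ^ 2 = 25 * cB v D ^ 2 := by ring
      rw [e1]
      linarith
    obtain ⟨h1, h2, h3⟩ := Ga_bd D hD (show 0 < K0 k by linarith) (mgr S ε k)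
      (fam (fac (g p k ω)) (S.dl 1 k) (Sum.inl (ρ p k ω))) (gcell Y ε k ω) (idx p k ω)
    exact ⟨h1.mono (ball_subset_ball hrad), fun y hy => h2 y (ball_subset_ball hrad hy), algR_mono hrad h3⟩

/-- the code has few values -/
lemma nv_three {F : FSp} {A B C : Setoid F.Ω} {x y z : ℝ} (ω : F.Ω) (h1 : (Sp.nv F A ω : ℝ) ≤ x) (h2 : (Sp.nv F B ω : ℝ) ≤ y)
    (h3 : (Sp.nv F C ω : ℝ) ≤ z) : (Sp.nv F (A ⊓ (B ⊓ C)) ω : ℝ) ≤ x * (y * z) := by
  have e1 := nv_inf F A (B ⊓ C) ω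
  have e2 := nv_inf F B C ω
  have e3 : (Sp.nv F (A ⊓ (B ⊓ C)) ω : ℝ) ≤ (Sp.nv F A ω : ℝ) * ((Sp.nv F B ω : ℝ) * (Sp.nv F C ω : ℝ)) := by
    have h4 : Sp.nv F (A ⊓ (B ⊓ C)) ω ≤ Sp.nv F A ω * (Sp.nv F B ω * Sp.nv F C ω) :=
      e1.trans (Nat.mul_le_mul_left _ e2)
    exact_mod_cast h4
  have hx : 0 ≤ x := le_trans (Nat.cast_nonneg _) h1
  have hy : 0 ≤ y := le_trans (Nat.cast_nonneg _) h2
  exact e3.trans (mul_le_mul h1 (mul_le_mul h2 h3 (Nat.cast_nonneg _) hy) (by positivity) hx)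

/-- DATA of quality `η` exist -/
theorem exists_VQ {V : ∀ k, Setoid (S.F k).Ω} {Q : S.VV M} {σ : Fin v → Fin M} {b : ℝ} (hb : 0 < b) (hb1 : b ≤ 1)
    (hD : 1 ≤ D) {g : Fin M → ∀ k, (S.F k).Ω → Matrix (Mon (v + 1) D) (Mon (v + 1) D) ℝ} (x : CutF V Q σ b D g)
    {η : ℝ} (hη : 0 < η) (hη1 : η ≤ 1) :
    ∀ᶠ k in UF, ∃ d : VD (S.F k) M v, VQ (S.F k) (V k) (Q.v k) σ b D η d := by
  classical
  obtain ⟨K1, hK1, hQ⟩ := Q.bd
  have hK01 : ∀ᶠ k in UF, 1 ≤ K1 k + 1 := by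
    filter_upwards [hK1.1] with k hk
    linarith
  set ε : ℝ := η / (8 * (v + 1)) with hε
  have hε0 : 0 < ε := by positivity
  have hεη : ε ≤ η / 8 := by
    rw [hε]
    apply div_le_div_of_nonneg_left hη.le (by norm_num)
    have : (0 : ℝ) ≤ v := Nat.cast_nonneg v
    linarith
  have hε1 : ε ≤ 1 := by linarith
  have hvε : v * ε ≤ η / 8 := by
    rw [hε, mul_div_assoc', div_le_div_iff₀ (by positivity) (by norm_num)]
    nlinarith [(Nat.cast_nonneg v : (0 : ℝ) ≤ v)]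
  clear_value ε
  obtain ⟨code, A, H, hAT, hA, hms, hH⟩ := exists_codes hb hD x hε0 hε1 (show 0 < η / 8 by linarith) hK01 (by
    filter_upwards [hQ] with k hk ω hω i
    have := hk ω hω i
    linarith)
  have hS1 : S.Sub (fun k => 8 * K1 k + 16) :=
    ((S.Sub_const (show (0 : ℝ) ≤ 8 by norm_num)).mul hK1).add (S.Sub_const (by norm_num))
  have hS2 : S.Sub (fun _ => 2 * (D : ℝ)) := S.Sub_const (by positivity)
  have hS5 : S.Sub (fun _ => (Fintype.card (Prop × (Fin M → (Mon (v + 1) D × (Fin (v + 1) → Fin (D + 1))) ×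
    Option (Fin (D * D)))) : ℝ)) := S.Sub_const (by positivity)
  have hful : ∀ᶠ k in UF, (v - η / 8) * (S.F k).n ≤
      (S.F k).e (Setoid.ker ((pck Q σ).cellv 1 k)) (V k ⊓ (S.F k).Z) := by
    filter_upwards [x.full.eventually (lt_mem_nhds (show (v : ℝ) - η / 8 < v by linarith))] with k hk
    have hn := (S.F k).pos
    rw [lt_div_iff₀ hn, h_fc] at hk
    exact hk.le
  have hl := S.div_n_tendsto (2 * v)
  filter_upwards [hQ, hK1.1, hS1.eventually_le (show 0 < η / 2 by linarith),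
    hS2.eventually_le (show 0 < η / 2 by linarith),
    hS5.eventually_le one_pos, hms, ent_gcell (pck Q σ) hε0.le (show 0 < η / 8 by linarith),
    ent_bad Q hb.le hAT (show 0 < η / 8 by linarith), ent_fin code V (show 0 < η / 8 by linarith),
    nv_gcell (pck Q σ) hε1, nv_bad Q hb1 A, hful, hl.eventually (gt_mem_nhds (show 0 < η / 8 by linarith)), hH]
    with k a1 a2 a4 a5 a8 a9 a10 a11 a12 a13 a14 a15 a16 a17
  have hn := (S.F k).pos
  have hN1 := ngr_one S ε k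
  have hNle := ngr_le S ε k
  rw [dl_inv] at hNle
  rw [div_lt_iff₀ hn] at a16
  refine ⟨mkD (Q.v k) σ b (ngr S ε k) (code k) (A k) (H k), ?_⟩
  have h2η : (2 : ℝ) ^ (η / 2 * (S.F k).n) ≤ 2 ^ (η * (S.F k).n) := by
    apply Real.rpow_le_rpow_of_exponent_le (by norm_num)
    nlinarith
  have hηη : (2 : ℝ) ^ (η * (S.F k).n) = 2 ^ (η / 2 * (S.F k).n) * 2 ^ (η / 2 * (S.F k).n) := by
    rw [← Real.rpow_add (by norm_num)]
    congr 1; ring
  have hen : (S.F k).e (mkD (Q.v k) σ b (ngr S ε k) (code k) (A k) (H k)).R (V k ⊓ (S.F k).Z) ≤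
      η / 2 * (S.F k).n := by
    have h1 : (S.F k).e (mkD (Q.v k) σ b (ngr S ε k) (code k) (A k) (H k)).R (V k ⊓ (S.F k).Z) ≤ _ :=
      (S.F k).e_sup_le (Setoid.ker (gcell (pck Q σ) ε k)) (Setoid.ker (code k) ⊓ Setoid.ker (bad Q b A k))
      (V k ⊓ (S.F k).Z)
    have h2 := (S.F k).e_sup_le (Setoid.ker (code k)) (Setoid.ker (bad Q b A k)) (V k ⊓ (S.F k).Z)
    have h3 := a10 (V k ⊓ (S.F k).Z)
    have h4 := a11 (V k ⊓ (S.F k).Z)
    have h5 : v * ε * (S.F k).n ≤ η / 8 * (S.F k).n := mul_le_mul_of_nonneg_right hvε hn.le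
    linarith
  constructor
  · exact mkD_fn (code k) (A k) (H k) x.inj a9
  · exact hN1
  · show ngr S ε k ≤ 2 ^ (η * (S.F k).n)
    have h1 : (2 : ℝ) ^ (ε * (S.F k).n) ≤ 2 ^ (η / 2 * (S.F k).n) := by
      apply Real.rpow_le_rpow_of_exponent_le (by norm_num)
      apply mul_le_mul_of_nonneg_right _ hn.le
      linarith
    rw [hηη]
    have h2 : (2 : ℝ) ≤ 2 ^ (η / 2 * (S.F k).n) := by linarith
    nlinarith
  · intro ω j
    show 0 ≤ ngr S ε k * Q.v k ω (σ j) - (⌊ngr S ε k * Q.v k ω (σ j)⌋ : ℝ) ∧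
      ngr S ε k * Q.v k ω (σ j) - (⌊ngr S ε k * Q.v k ω (σ j)⌋ : ℝ) ≤ 1
    have h1 := Int.floor_le (ngr S ε k * Q.v k ω (σ j))
    have h2 := Int.lt_floor_add_one (ngr S ε k * Q.v k ω (σ j))
    constructor <;> linarith
  · exact mkD_dG (code k) (A k) (H k) x.inj fun ω p => (a17 ω p).1
  · exact mkD_aG (code k) (A k) (H k) hD x.inj fun ω p => (a17 ω p).2.2
  · intro ω hω p y hy
    refine (mkD_bG (code k) (A k) (H k) x.inj hb.le hN1 a1 (fun ω p => (a17 ω p).2.1) a2 ω hω p y hy).trans ?_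
    linarith
  · intro ω j
    exact mkD_σ (code k) (A k) (H k) x.inj ω j
  · intro ω hω p
    have hB : (1 : ℝ) ≤ 2 ^ (η * (S.F k).n) := Real.one_le_rpow (by norm_num) (by positivity)
    refine mkD_pt (code k) (A k) (H k) x.inj hN1 hB (fun ω h p hp => ?_) ω p
    refine (hA k ω h p hp).trans ?_
    have e2 : (2 : ℝ) ^ (2 * (η / 8) * (S.F k).n) ≤ 2 ^ (η / 2 * (S.F k).n) := by
      apply Real.rpow_le_rpow_of_exponent_le (by norm_num)
      apply mul_le_mul_of_nonneg_right _ hn.le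
      linarith
    rw [← mul_assoc]
    apply mul_le_mul_of_nonneg_right _ (by positivity)
    rw [hηη]
    apply mul_le_mul _ e2 (by positivity) (by positivity)
    linarith [(Nat.cast_nonneg D : (0 : ℝ) ≤ D)]
  · exact hen.trans (by nlinarith)
  · intro ω hω
    have h4 : (Sp.nv (S.F k) (Setoid.ker (code k)) ω : ℝ) ≤ 2 ^ ((S.F k).n) := by
      refine (nv_fin (code k) ω).trans ?_
      rw [one_mul] at a8
      linarith
    have e1 : (2 : ℝ) ^ (cV M v * (S.F k).n) = 2 ^ (v * (2 * (S.F k).n)) * (2 ^ ((S.F k).n) *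
        2 ^ (M * (2 * (S.F k).n))) := by
      rw [← Real.rpow_add (by norm_num), ← Real.rpow_add (by norm_num)]
      congr 1
      unfold cV
      ring
    rw [e1]
    exact nv_three ω (a13 ω) h4 (a14 ω)
  · have h1 := mkD_ful (code k) (A k) (H k) hN1 hb1 hen
    have e1 : (Setoid.ker fun ω => cell (2 ^ (-(S.F k).n)) (fun i => Q.v k ω (σ i))) =
        Setoid.ker ((pck Q σ).cellv 1 k) := by
      have e2 : S.dl 1 k = 2 ^ (-(S.F k).n) := by
        unfold Sp.dl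
        rw [one_mul]
      congr 1
      funext ω
      show cell (2 ^ (-(S.F k).n)) _ = cell (S.dl 1 k) _
      rw [e2]
      rfl
    rw [e1] at h1
    linarith

end

end Pool.Agent.Helper76.DIM
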